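import Mathlib
import Pool.Agent.MP_f6b137_pr.H13.Events
import Pool.Agent.MP_f6b137_pr.H13.Cheb

set_option autoImplicit false

open Finset Polynomial
open scoped RealInnerProductSpace

namespace Pool.Agent.MP_f6b137_pr.H47

open Pool.Agent.MP_f6b137_pr.H13

variable {B : ℝ[X] →ₗ[ℝ] ℝ[X] →ₗ[ℝ] ℝ} {q : ℕ → ℝ[X]}

/-- The diagonal of the reproducing kernel. -/
noncomputable def ker (q : ℕ → ℝ[X]) (s : ℕ) (y : ℝ) : ℝ := ∑ b ∈ range s, (q b).eval y ^ 2

lemma norm_vals_sq (q : ℕ → ℝ[X]) (s : ℕ) (y : ℝ) : ‖vals q s y‖ ^ 2 = ker q s y := by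
  rw [EuclideanSpace.real_norm_sq_eq, ker, ← Fin.sum_univ_eq_sum_range (fun b => (q b).eval y ^ 2)]
  rfl

lemma ker_succ (q : ℕ → ℝ[X]) (s : ℕ) (y : ℝ) :
    ker q (s + 1) y = ker q s y + (q s).eval y ^ 2 := Finset.sum_range_succ _ _

lemma ker_pos (h : IsONP B q) (s : ℕ) (y : ℝ) : 0 < ker q (s + 1) y := by
  rw [← norm_vals_sq]
  exact pow_pos (norm_pos_iff.2 (h.vals_ne (Nat.succ_pos s) y)) 2

lemma eval_sq_le (h : IsONP B q) {s : ℕ} (π : ℝ[X]) (hπ : π.degree < s) (y : ℝ) :
    π.eval y ^ 2 ≤ ker q s y * B π π := by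
  obtain ⟨c, rfl⟩ := h.exists_comb s π hπ
  rw [h.form_comb_self, eval_comb, ← norm_vals_sq, ← mul_pow, ← sq_abs]
  exact pow_le_pow_left₀ (abs_nonneg _) (abs_real_inner_le_norm _ _) 2

lemma coeff_comb (h : IsONP B q) (s : ℕ) (c : EuclideanSpace ℝ (Fin (s + 1))) :
    (comb q (s + 1) c).coeff s = c (Fin.last s) * (q s).leadingCoeff := by
  rw [comb_apply, finsetSum_coeff, Fin.sum_univ_castSucc]
  rw [Finset.sum_eq_zero (fun b _ => by
    rw [coeff_smul, coeff_eq_zero_of_natDegree_lt (by rw [h.deg]; exact b.2), smul_zero])]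
  simp [leadingCoeff, h.deg]

lemma exists_top_coord (h : IsONP B q) (T : ℝ[X]) (hT : T.Monic) (s : ℕ) :
    ∃ c : EuclideanSpace ℝ (Fin (T.natDegree + s + 1)), comb q _ c = T * q s ∧
      c (Fin.last _) * (q (T.natDegree + s)).leadingCoeff = (q s).leadingCoeff := by
  have hd : (T * q s).natDegree = T.natDegree + s := by
    rw [hT.natDegree_mul' (h.ne_zero s), h.deg]
  obtain ⟨c, hc⟩ := h.exists_comb (T.natDegree + s + 1) (T * q s)
    (degree_le_natDegree.trans_lt (by rw [hd]; exact_mod_cast Nat.lt_succ_self _))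
  refine ⟨c, hc, ?_⟩
  rw [← coeff_comb h, hc, ← hd, coeff_natDegree, leadingCoeff_monic_mul hT]

lemma lead_jump (h : IsONP B q) (T : ℝ[X]) (hT : T.Monic) (b : ℝ) (hb : 0 ≤ b)
    (hB : ∀ Q, B (T * Q) (T * Q) ≤ b ^ 2 * B Q Q) (s : ℕ) :
    (q s).leadingCoeff ≤ b * (q (T.natDegree + s)).leadingCoeff := by
  obtain ⟨c, hc, hc'⟩ := exists_top_coord h T hT s
  have h1 := hB (q s)
  rw [← hc, h.form_comb_self, h.on, if_pos rfl, mul_one] at h1
  have h2 : ‖c‖ ≤ b := (abs_le_of_sq_le_sq' h1 hb).2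
  have h3 := PiLp.norm_apply_le c (Fin.last _)
  rw [← hc']
  exact mul_le_mul_of_nonneg_right ((le_abs_self _).trans (h3.trans h2)) (h.pos _).le

lemma lead_mono (h : IsONP B q) (hX : ∀ Q, B (X * Q) (X * Q) ≤ B Q Q) (s : ℕ) :
    (q s).leadingCoeff ≤ (q (s + 1)).leadingCoeff := by
  have := lead_jump h X monic_X 1 zero_le_one (by simpa using hX) s
  rwa [natDegree_X, one_mul, add_comm] at this

lemma ker_step (h : IsONP B q) (hX : ∀ Q, B (X * Q) (X * Q) ≤ B Q Q) (s : ℕ) (y : ℝ)
    (hy : |y| ≤ 1) :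
    ker q (s + 2) y ≤ 5 * ((q (s + 1)).leadingCoeff / (q s).leadingCoeff) ^ 2 * ker q (s + 1) y := by
  have hd : (X * q s).natDegree = s + 1 := by
    rw [monic_X.natDegree_mul' (h.ne_zero s), h.deg, natDegree_X, add_comm]
  obtain ⟨c, hc⟩ := h.exists_comb (s + 1 + 1) (X * q s)
    (degree_le_natDegree.trans_lt (by rw [hd]; exact_mod_cast Nat.lt_succ_self _))
  have hc' : c (Fin.last _) * (q (s + 1)).leadingCoeff = (q s).leadingCoeff := by
    rw [← coeff_comb h, hc, ← hd, coeff_natDegree, leadingCoeff_monic_mul monic_X]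
  have h1 := hX (q s)
  rw [← hc, h.form_comb_self, h.on, if_pos rfl, EuclideanSpace.real_norm_sq_eq,
    Fin.sum_univ_castSucc] at h1
  have h2 := congrArg (eval y) hc
  rw [comb_apply, eval_finsetSum, Fin.sum_univ_castSucc] at h2
  simp only [eval_smul, smul_eq_mul, eval_mul, eval_X, Fin.val_castSucc, Fin.val_last] at h2
  have h3 := Finset.sum_mul_sq_le_sq_mul_sq Finset.univ (fun b : Fin (s + 1) => c b.castSucc)
    (fun b => (q b).eval y)
  rw [Fin.sum_univ_eq_sum_range (fun b => (q b).eval y ^ 2)] at h3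
  change _ ≤ _ * ker q (s + 1) y at h3
  set a := c (Fin.last _)
  set u := ∑ b : Fin (s + 1), c b.castSucc * (q b).eval y
  set K := ker q (s + 1) y with hK
  have hK0 : 0 < K := ker_pos h s y
  have h4 : u ^ 2 ≤ K := h3.trans (by nlinarith [sq_nonneg a])
  have h5 : (y * (q s).eval y) ^ 2 ≤ K := by
    have a1 : y ^ 2 ≤ 1 := by rw [← sq_abs]; exact pow_le_one₀ (abs_nonneg _) hy
    have a2 : (q s).eval y ^ 2 ≤ K := by
      rw [hK, ker_succ]
      have : 0 ≤ ker q s y := Finset.sum_nonneg (fun _ _ => sq_nonneg _)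
      linarith
    rw [mul_pow]
    nlinarith [sq_nonneg ((q s).eval y)]
  have h6 : (a * (q (s + 1)).eval y) ^ 2 ≤ 4 * K := by
    have : a * (q (s + 1)).eval y = y * (q s).eval y - u := by linarith
    rw [this]
    nlinarith [sq_nonneg (y * (q s).eval y + u)]
  have g0 := h.pos s
  have g1 := h.pos (s + 1)
  set A := (q (s + 1)).leadingCoeff / (q s).leadingCoeff with hA
  have hA1 : 1 ≤ A := (one_le_div g0).2 (lead_mono h hX s)
  have haA : a * A = 1 := by rw [hA, ← mul_div_assoc, hc', div_self g0.ne']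
  have h7 : (q (s + 1)).eval y ^ 2 ≤ A ^ 2 * (4 * K) := by
    calc _ = A ^ 2 * (a * (q (s + 1)).eval y) ^ 2 := by
          rw [← mul_pow, ← mul_assoc, mul_comm A a, haA, one_mul]
      _ ≤ _ := by gcongr
  rw [ker_succ q (s + 1), ← hK]
  nlinarith [one_le_pow₀ (n := 2) hA1]

lemma log_ker_le (h : IsONP B q) (hX : ∀ Q, B (X * Q) (X * Q) ≤ B Q Q) (y : ℝ) (hy : |y| ≤ 1)
    (s : ℕ) : Real.log (ker q (s + 2) y) ≤ 2 + 2 * (Real.log (q (s + 1)).leadingCoeff
      - Real.log (q s).leadingCoeff) + Real.log (ker q (s + 1) y) := by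
  have g0 := h.pos s
  have g1 := h.pos (s + 1)
  have k0 := ker_pos h s y
  have h1 := Real.log_le_log (ker_pos h (s + 1) y) (ker_step h hX s y hy)
  rw [Real.log_mul (by positivity) k0.ne', Real.log_mul (by norm_num) (by positivity), Real.log_pow,
    Real.log_div g1.ne' g0.ne'] at h1
  have h2 : Real.log 5 ≤ 2 := by
    rw [Real.log_le_iff_le_exp (by norm_num)]
    have := Real.add_one_le_exp (1 : ℝ)
    have h3 := Real.exp_one_gt_d9
    rw [show (2 : ℝ) = 1 + 1 by norm_num, Real.exp_add]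
    nlinarith
  push_cast at h1
  linarith

lemma log_ker_upper (h : IsONP B q) (hX : ∀ Q, B (X * Q) (X * Q) ≤ B Q Q) (y : ℝ) (hy : |y| ≤ 1)
    (s : ℕ) : Real.log (ker q (s + 1) y) ≤ 2 * s + 2 * Real.log (q s).leadingCoeff := by
  induction s with
  | zero =>
    have h1 : ker q 1 y = (q 0).leadingCoeff ^ 2 := by
      rw [ker, Finset.sum_range_one, eq_C_of_natDegree_eq_zero (h.deg 0)]
      simp
    rw [zero_add, h1, Real.log_pow]
    simp
  | succ s ih =>
    have := log_ker_le h hX y hy s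
    push_cast
    linarith

open Classical in
/-- In a window of degrees along which the leading coefficients grow fast, there is a degree whose
top coordinate carries the evaluation functional at most nodes. -/
theorem exists_top {J : Type} [Fintype J] (h : IsONP B q) (hX : ∀ Q, B (X * Q) (X * Q) ≤ B Q Q)
    (y : J → ℝ) (hy : ∀ j, |y j| ≤ 1) (s0 L : ℕ) (hL : s0 ≤ L) (hL0 : 0 < L) (κ G A : ℝ)
    (hκ : 0 < κ) (hA : 0 ≤ A) (hG : 2 + 2 * A < κ * G) (hJ : 0 < Fintype.card J)
    (hjump : G * L ≤ Real.log (q (s0 + L)).leadingCoeff - Real.log (q s0).leadingCoeff)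
    (hlow : 2 * Fintype.card J * Real.log (q (s0 + L)).leadingCoeff
      - 2 * (s0 + L) * (A * Fintype.card J) ≤ ∑ j, Real.log (ker q (s0 + L + 1) (y j))) :
    ∃ t, s0 < t ∧ t ≤ s0 + L ∧
      ((univ.filter (fun j => (q t).eval (y j) ^ 2 < 1 / 4 * ker q (t + 1) (y j))).card : ℝ)
        ≤ κ * Fintype.card J := by
  by_contra hc
  push Not at hc
  set r : ℝ := (Fintype.card J : ℝ) with hr
  have hr0 : 0 < r := by rw [hr]; exact_mod_cast hJ
  let g : ℕ → ℝ := fun s => Real.log (q s).leadingCoeff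
  let F : ℕ → ℝ := fun s => ∑ j, Real.log (ker q (s + 1) (y j))
  have hstep : ∀ s, s0 ≤ s → s < s0 + L →
      F (s + 1) ≤ 2 * r + 2 * (1 - κ) * r * (g (s + 1) - g s) + F s := by
    intro s hs1 hs2
    have hg : 0 ≤ g (s + 1) - g s :=
      sub_nonneg.2 (Real.log_le_log (h.pos s) (lead_mono h hX s))
    set S := univ.filter (fun j => (q (s + 1)).eval (y j) ^ 2 < 1 / 4 * ker q (s + 1 + 1) (y j))
      with hS
    have h1 : κ * r < S.card := hc (s + 1) (by omega) (by omega)
    have h2 : ∀ j, Real.log (ker q (s + 2) (y j)) ≤ 2 + 2 * (g (s + 1) - g s)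
        - (if j ∈ S then 2 * (g (s + 1) - g s) else 0) + Real.log (ker q (s + 1) (y j)) := by
      intro j
      split_ifs with hj
      · have a1 := (Finset.mem_filter.1 hj).2
        have k0 := ker_pos h s (y j)
        have a2 : ker q (s + 2) (y j) ≤ 2 * ker q (s + 1) (y j) := by
          have := ker_succ q (s + 1) (y j)
          linarith
        have a3 := Real.log_le_log (ker_pos h (s + 1) (y j)) a2
        rw [Real.log_mul (by norm_num) k0.ne'] at a3
        linarith [Real.log_two_lt_d9]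
      · have := log_ker_le h hX (y j) (hy j) s
        simp only [g]
        linarith
    have h3 := Finset.sum_le_sum (fun j (_ : j ∈ univ) => h2 j)
    rw [Finset.sum_add_distrib, Finset.sum_sub_distrib, Finset.sum_ite_mem, Finset.univ_inter,
      Finset.sum_const, Finset.sum_const, Finset.card_univ, nsmul_eq_mul, nsmul_eq_mul, ← hr] at h3
    change F (s + 1) ≤ _ + F s at h3
    nlinarith [mul_le_mul_of_nonneg_right h1.le hg]
  have hind : ∀ l, l ≤ L →
      F (s0 + l) ≤ 2 * r * l + 2 * (1 - κ) * r * (g (s0 + l) - g s0) + F s0 := by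
    intro l
    induction l with
    | zero => intro _; simp
    | succ l ih =>
      intro hl
      have a1 := ih (by omega)
      have a2 := hstep (s0 + l) (by omega) (by omega)
      rw [← add_assoc]
      push_cast
      linarith
  have h1 := hind L le_rfl
  have h2 : F s0 ≤ r * (2 * s0 + 2 * g s0) := by
    have := Finset.sum_le_sum (fun j (_ : j ∈ univ) => log_ker_upper h hX (y j) (hy j) s0)
    rwa [Finset.sum_const, Finset.card_univ, nsmul_eq_mul] at this
  change 2 * r * g (s0 + L) - _ ≤ F (s0 + L) at hlow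
  change G * L ≤ g (s0 + L) - g s0 at hjump
  have hL' : (s0 : ℝ) ≤ L := by exact_mod_cast hL
  have hL1 : (0 : ℝ) < L := by exact_mod_cast hL0
  have h3 : κ * (g (s0 + L) - g s0) ≤ (s0 + L) * (1 + A) := by
    refine le_of_mul_le_mul_left ?_ (by positivity : 0 < 2 * r)
    nlinarith
  have h4 : ((s0 : ℝ) + L) * (1 + A) ≤ (L + L) * (1 + A) := by gcongr
  nlinarith [mul_le_mul_of_nonneg_left hjump hκ.le, mul_lt_mul_of_pos_right hG hL1]

/-- Removing the roots that are close to a node. -/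
lemma modify_aux {J : Type} [Fintype J] (y : J → ℝ) (η c : ℝ) (hη : 0 < η) (hc0 : 0 ≤ c)
    (hc : ∀ a : ℝ, c ≤ ∏ j, max |y j - a| η) (R : Multiset ℂ) :
    ∃ π : J → ℝ[X], (∀ j, (π j).natDegree ≤ R.card) ∧
      (∀ j (x : ℝ), 2 * η ≤ |x - y j| → |(π j).eval x| ≤ (R.map (fun z => ‖(x : ℂ) - z‖)).prod) ∧
      c ^ R.card ≤ ∏ j, |(π j).eval (y j)| := by
  induction R using Multiset.induction_on with
  | empty => exact ⟨fun _ => 1, by simp, by simp, by simp⟩
  | cons z R ih =>
    obtain ⟨π, h1, h2, h3⟩ := ih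
    refine ⟨fun j => (if η ≤ |y j - z.re| then X - C z.re else C η) * π j, fun j => ?_,
      fun j x hx => ?_, ?_⟩
    · refine natDegree_mul_le.trans ?_
      have := h1 j
      rw [Multiset.card_cons]
      split_ifs
      · rw [natDegree_X_sub_C]; omega
      · rw [natDegree_C]; omega
    · rw [Multiset.map_cons, Multiset.prod_cons, eval_mul, abs_mul]
      refine mul_le_mul ?_ (h2 j x hx) (abs_nonneg _) (norm_nonneg _)
      have a1 : |x - z.re| ≤ ‖(x : ℂ) - z‖ := by
        simpa using Complex.abs_re_le_norm ((x : ℂ) - z)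
      refine le_trans ?_ a1
      split_ifs with hh
      · simp
      · rw [eval_C, abs_of_pos hη]
        have := abs_sub_le x z.re (y j)
        rw [abs_sub_comm z.re] at this
        push Not at hh
        linarith
    · simp only [eval_mul, abs_mul]
      rw [Finset.prod_mul_distrib, Multiset.card_cons, pow_succ']
      refine mul_le_mul ((hc z.re).trans (le_of_eq ?_)) h3 (pow_nonneg hc0 _)
        (Finset.prod_nonneg (fun _ _ => abs_nonneg _))
      refine Finset.prod_congr rfl (fun j _ => ?_)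
      split_ifs with hh
      · rw [max_eq_left hh]; simp
      · rw [max_eq_right (le_of_not_ge hh), eval_C, abs_of_pos hη]

lemma abs_eval_eq (Q : ℝ[X]) (x : ℝ) : |Q.eval x|
    = |Q.leadingCoeff| * ((Q.map (algebraMap ℝ ℂ)).roots.map (fun z => ‖(x : ℂ) - z‖)).prod := by
  have h := C_leadingCoeff_mul_prod_multiset_X_sub_C (p := Q.map (algebraMap ℝ ℂ))
    (IsAlgClosed.card_roots_eq_natDegree)
  have h2 := congrArg (fun P => ‖eval (x : ℂ) P‖) h
  simp only [eval_mul, eval_C, norm_mul, eval_multiset_prod, Multiset.map_map, Function.comp_def,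
    eval_sub, eval_X] at h2
  rw [eval_map_algebraMap, aeval_real, Complex.norm_real, Real.norm_eq_abs,
    leadingCoeff_map, Complex.coe_algebraMap, Complex.norm_real, Real.norm_eq_abs] at h2
  rw [← h2]
  congr 1
  have := map_multiset_prod (normHom (α := ℂ))
    ((Q.map (algebraMap ℝ ℂ)).roots.map (fun z => (x : ℂ) - z))
  simp only [Multiset.map_map, Function.comp_def] at this
  exact this

variable {Φ : ℝ[X] →ₗ[ℝ] ℝ} {E : Set ℝ}

lemma form_le (hΦ : Fnl Φ E) (w P Q : ℝ[X]) (b : ℝ) (h : ∀ x ∈ E, |P.eval x| ≤ b * |Q.eval x|) :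
    wform Φ w P P ≤ b ^ 2 * wform Φ w Q Q := by
  rw [wform_apply, wform_apply, ← smul_eq_mul (b ^ 2), ← map_smul]
  refine hΦ.le (fun x hx => ?_)
  have h1 := pow_le_pow_left₀ (abs_nonneg _) (h x hx) 2
  rw [mul_pow, sq_abs, sq_abs] at h1
  simp only [eval_smul, eval_mul, smul_eq_mul]
  nlinarith [mul_le_mul_of_nonneg_right h1 (sq_nonneg (w.eval x))]

/-- The averaged lower bound for the kernel at the nodes. -/
lemma ker_lower {J : Type} [Fintype J] (hΦ : Fnl Φ E) (w : ℝ[X]) (h : IsONP (wform Φ w) q)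
    (y : J → ℝ) (η c : ℝ) (hη : 0 < η) (hc0 : 0 < c) (hc : ∀ a : ℝ, c ≤ ∏ j, max |y j - a| η)
    (hfar : ∀ j, ∀ x ∈ E, 2 * η ≤ |x - y j|) (m : ℕ) :
    2 * Fintype.card J * Real.log (q m).leadingCoeff + 2 * m * Real.log c
      ≤ ∑ j, Real.log (ker q (m + 1) (y j)) := by
  obtain ⟨π, h1, h2, h3⟩ := modify_aux y η c hη hc0.le hc ((q m).map (algebraMap ℝ ℂ)).roots
  rw [IsAlgClosed.card_roots_eq_natDegree, natDegree_map, h.deg] at h1 h3
  have g := h.pos m
  have hp : 0 < ∏ j, |(π j).eval (y j)| := (pow_pos hc0 m).trans_le h3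
  have hne : ∀ j, (π j).eval (y j) ≠ 0 := fun j h0 => hp.ne'
    (Finset.prod_eq_zero (Finset.mem_univ j) (by rw [h0, abs_zero]))
  have h4 : ∀ j, 2 * Real.log (q m).leadingCoeff + 2 * Real.log |(π j).eval (y j)|
      ≤ Real.log (ker q (m + 1) (y j)) := by
    intro j
    have a1 := eval_sq_le h (s := m + 1) (π j)
      (degree_le_natDegree.trans_lt (by exact_mod_cast Nat.lt_succ_of_le (h1 j))) (y j)
    have a2 := form_le hΦ w (π j) (q m) (q m).leadingCoeff⁻¹ (fun x hx => by
      rw [abs_eval_eq (q m), abs_of_pos g, inv_mul_cancel_left₀ g.ne']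
      exact h2 j x (hfar j x hx))
    rw [h.on, if_pos rfl, mul_one] at a2
    have k0 := ker_pos h m (y j)
    have a3 : ((q m).leadingCoeff * |(π j).eval (y j)|) ^ 2 ≤ ker q (m + 1) (y j) := by
      rw [mul_pow, sq_abs]
      calc _ ≤ (q m).leadingCoeff ^ 2 * (ker q (m + 1) (y j) * (q m).leadingCoeff⁻¹ ^ 2) := by
            gcongr
            exact a1.trans (by gcongr)
        _ = _ := by field_simp
    have a4 := Real.log_le_log (pow_pos (mul_pos g (abs_pos.2 (hne j))) 2) a3
    rw [Real.log_pow, Real.log_mul g.ne' (abs_pos.2 (hne j)).ne'] at a4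
    push_cast at a4
    linarith
  have h5 := Finset.sum_le_sum (fun j (_ : j ∈ univ) => h4 j)
  rw [Finset.sum_add_distrib, Finset.sum_const, Finset.card_univ, nsmul_eq_mul, ← Finset.mul_sum,
    ← Real.log_prod (fun j _ => (abs_pos.2 (hne j)).ne')] at h5
  have h6 := Real.log_le_log (pow_pos hc0 m) h3
  rw [Real.log_pow] at h6
  linarith

lemma node_prod (M : ℕ) (I : Finset ℕ) (hI : I ⊆ range M) (η : ℝ) (hη : 0 < η) (hη1 : η ≤ 1)
    (a : ℝ) : η / 12 ^ M ≤ ∏ j : I, max |node M j - a| η := by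
  rw [Finset.prod_coe_sort I (fun j => max |node M j - a| η)]
  have hn : ∀ j, |node M j| ≤ 1 := fun j => Real.abs_cos_le_one _
  have h12 : (1 : ℝ) ≤ 12 ^ M := one_le_pow₀ (by norm_num)
  have hle : η / 12 ^ M ≤ 1 := (div_le_one (by positivity)).2 (by linarith)
  by_cases ha : 2 ≤ |a|
  · refine hle.trans (Finset.one_le_prod (fun j _ => le_max_of_le_left ?_))
    have := abs_sub_abs_le_abs_sub a (node M j)
    rw [abs_sub_comm] at this
    linarith [hn j]
  push Not at ha
  rcases Nat.eq_zero_or_pos M with rfl | hM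
  · rw [Finset.range_zero, Finset.subset_empty] at hI
    simpa [hI] using hη1
  obtain ⟨j0, hj0, hmin⟩ := Finset.exists_min_image (range M) (fun j => |node M j - a|)
    ⟨0, Finset.mem_range.2 hM⟩
  have h1 := cheb_lower (Finset.mem_range.1 hj0)
  rw [abs_mul, abs_of_pos (by positivity), Finset.abs_prod] at h1
  have h2 : ∏ i ∈ (range M).erase j0, |node M j0 - node M i|
      ≤ ∏ i ∈ (range M).erase j0, (2 * max |node M i - a| η) := by
    refine Finset.prod_le_prod (fun _ _ => abs_nonneg _) (fun i hi => ?_)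
    have a1 := abs_sub_le (node M j0) a (node M i)
    have a2 := hmin i (Finset.mem_of_mem_erase hi)
    rw [abs_sub_comm a] at a1
    linarith [le_max_left |node M i - a| η]
  rw [Finset.prod_mul_distrib, Finset.prod_const, Finset.card_erase_of_mem hj0,
    Finset.card_range] at h2
  have h3 : ∏ i ∈ range M \ I, max |node M i - a| η ≤ 3 ^ M := by
    refine (Finset.prod_le_prod (g := fun _ => 3) (fun _ _ => by positivity) (fun i _ => ?_)).trans ?_
    · refine max_le ?_ (by linarith)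
      linarith [abs_sub (node M i) a, hn i]
    · rw [Finset.prod_const]
      refine pow_le_pow_right₀ (by norm_num) ?_
      simpa using Finset.card_le_card (Finset.sdiff_subset (s := range M) (t := I))
  have h4 := Finset.prod_sdiff (f := fun i => max |node M i - a| η) hI
  have h5 := Finset.mul_prod_erase (range M) (fun i => max |node M i - a| η) hj0
  set P := ∏ i ∈ (range M).erase j0, max |node M i - a| η
  set Q := ∏ i ∈ I, max |node M i - a| η
  have hP : 0 ≤ P := Finset.prod_nonneg (fun _ _ => by positivity)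
  have hQ : 0 ≤ Q := Finset.prod_nonneg (fun _ _ => by positivity)
  have h6 : (1 : ℝ) ≤ 4 ^ M * P := by
    have a1 : (2 : ℝ) ^ (M - 1) ≤ 2 ^ M := pow_le_pow_right₀ (by norm_num) (by omega)
    calc (1 : ℝ) ≤ 2 ^ (M - 1) * (2 ^ (M - 1) * P) := h1.trans (by gcongr)
      _ ≤ 2 ^ M * (2 ^ M * P) := by gcongr
      _ = _ := by rw [← mul_assoc, ← mul_pow]; norm_num
  have h7 : η * P ≤ 3 ^ M * Q := by
    calc η * P ≤ max |node M j0 - a| η * P := by gcongr; exact le_max_right _ _
      _ = _ := h5.trans h4.symm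
      _ ≤ _ := by gcongr
  rw [div_le_iff₀ (by positivity), show (12 : ℝ) ^ M = 4 ^ M * 3 ^ M by rw [← mul_pow]; norm_num]
  calc η ≤ η * (4 ^ M * P) := by nlinarith
    _ = 4 ^ M * (η * P) := by ring
    _ ≤ 4 ^ M * (3 ^ M * Q) := by gcongr
    _ = _ := by ring

end Pool.Agent.MP_f6b137_pr.H47
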