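import Mathlib
import Pool.Agent.MP_f6b137_pr.H13.Core
import Pool.Agent.MP_f6b137_pr.H47.Top

set_option autoImplicit false

open Finset Polynomial Filter Topology MeasureTheory ProbabilityTheory
open scoped RealInnerProductSpace

namespace Pool.Agent.MP_f6b137_pr.H47

open Pool.Agent.MP_f6b137_pr.H13

/-- Sets of small capacity. -/
def Cap (E : Set ℝ) (G : ℝ) : Prop :=
  ∃ T : ℝ[X], T.Monic ∧ 0 < T.natDegree ∧ ∀ x ∈ E, |T.eval x| ≤ Real.exp (-(G * T.natDegree))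

lemma cap_jump {Φ : ℝ[X] →ₗ[ℝ] ℝ} {E : Set ℝ} (hΦ : Fnl Φ E) (w : ℝ[X]) {q : ℕ → ℝ[X]}
    (hq : IsONP (wform Φ w) q) (T : ℝ[X]) (hT : T.Monic) (G : ℝ)
    (hTE : ∀ x ∈ E, |T.eval x| ≤ Real.exp (-(G * T.natDegree))) (s r : ℕ) :
    G * ((T.natDegree * r : ℕ) : ℝ) ≤ Real.log (q (s + T.natDegree * r)).leadingCoeff
      - Real.log (q s).leadingCoeff := by
  have h1 := lead_jump hq (T ^ r) (hT.pow r) (Real.exp (-(G * T.natDegree)) ^ r) (by positivity)
    (fun Q => form_le hΦ w _ _ _ (fun x hx => by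
      rw [eval_mul, abs_mul, eval_pow, abs_pow]
      exact mul_le_mul_of_nonneg_right (pow_le_pow_left₀ (abs_nonneg _) (hTE x hx) r)
        (abs_nonneg _))) s
  rw [hT.natDegree_pow, mul_comm r, add_comm _ s] at h1
  have h2 := Real.log_le_log (hq.pos s) h1
  rw [Real.log_mul (by positivity) (hq.pos _).ne', Real.log_pow, Real.log_exp] at h2
  push_cast
  linarith

lemma top_bad {B : ℝ[X] →ₗ[ℝ] ℝ[X] →ₗ[ℝ] ℝ} {q : ℕ → ℝ[X]} (hq : IsONP B q) (t : ℕ) (y : ℝ)
    (h : |⟪kdir q (t + 1) y, EuclideanSpace.single (Fin.last t) (1 : ℝ)⟫| < 1 / 2) :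
    (q t).eval y ^ 2 < 1 / 4 * ker q (t + 1) y := by
  have hv := norm_pos_iff.2 (hq.vals_ne (Nat.succ_pos t) y)
  rw [kdir, real_inner_smul_left, EuclideanSpace.inner_single_right, abs_mul,
    abs_of_pos (inv_pos.2 hv), inv_mul_lt_iff₀ hv] at h
  have h1 : |(q t).eval y| < ‖vals q (t + 1) y‖ * (1 / 2) := by simpa [vals] using h
  have h2 := pow_lt_pow_left₀ h1 (abs_nonneg _) two_ne_zero
  rw [sq_abs, mul_pow, norm_vals_sq] at h2
  linarith

open Classical in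
theorem var_core2 : ∃ q0 : ℝ, 0 < q0 ∧ q0 ≤ 1 ∧ ∃ p0 : ℝ, 0 < p0 ∧ ∃ Λ : ℝ, 1 ≤ Λ ∧
    ∀ (J : Type) [Fintype J] [DecidableEq J] (s n : ℕ) (M : ℝ), 0 < M →
    n + 1 = 2 * Fintype.card J + s → (1 - q0 / 32) * M ≤ Fintype.card J →
    (n : ℝ) ≤ (2 + q0 / 32) * M →
    ∀ (T : VV J s →ₗ[ℝ] ℝ[X]), (∀ ξ, (T ξ).natDegree ≤ n) →
    ∀ (D : J → ℝ[X]) (y : J → ℝ) (ε : ℝ), 0 < ε → (∀ i j, i ≠ j → 4 * ε ≤ |y i - y j|) →
    ∀ (k : J → EuclideanSpace ℝ (Fin s)), (∀ j, ‖k j‖ = 1) →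
    ∀ h : EuclideanSpace ℝ (Fin s), ‖h‖ = 1 →
    ((Finset.univ.filter (fun j => |⟪k j, h⟫| < 1 / 2)).card : ℝ) ≤ q0 / 32 * Fintype.card J →
    ∀ (lam : ℝ), 0 ≤ lam → Shape T D y ε k lam →
    ∀ (B : ℝ[X] →ₗ[ℝ] ℝ[X] →ₗ[ℝ] ℝ) (p : ℕ → ℝ[X]), IsONP B p → ∀ η : ℝ, 0 ≤ η → η ≤ 1 / 2 →
    (∀ ξ, |B (T ξ) (T ξ) - ‖ξ‖ ^ 2| ≤ η * ‖ξ‖ ^ 2) →
    (2 * lam + 22 * η) * (Λ * (n + 2)) ≤ 1 / 5 →
    BigVar p n (p0 * M ^ 2) := by
  classical
  obtain ⟨q0, hq0, hq1, hB⟩ := probB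
  refine ⟨q0, hq0, hq1, ?_⟩
  obtain ⟨p1, hp1, Λ, hΛ, hA⟩ := probA (1 / 2) (q0 / 32) (by positivity)
    (by positivity)
  refine ⟨min p1 (q0 / 4) * (q0 / 8) ^ 2, by positivity, Λ + 8 + 4 / q0,
    by have : 0 < 4 / q0 := by positivity
       linarith, ?_⟩
  intro J _ _ s n M hM hn hr hnM T hT D y ε hε hsep k hk h hh1 hh2 lam hlam hloc B p hp η hη0 hη hgram
    hsm Ω _ P _ ξ hξ hlaw
  have hJ : (0 : ℝ) < Fintype.card J := lt_of_lt_of_le (mul_pos (by linarith) hM) hr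
  have hJ' : 0 < Fintype.card J := by exact_mod_cast hJ
  have : Nonempty J := Fintype.card_pos_iff.1 hJ'
  obtain ⟨O, hO⟩ := transfer hn T hT D y ε k hk lam hlam hloc hp η hη0 hη hgram
  obtain ⟨A, hAm, hAp, hA⟩ := hA (VV J s) J (fun j => zvec J (k j)) (fun j => evec s (j, true))
    (fun j => evec s (j, false)) (zvec J h) (fun j => by rw [norm_zvec, hk])
    (fun j => norm_evec _) (fun j => norm_evec _) (by rw [norm_zvec, hh1])
    (fun j => inner_evec_zvec _ _) (fun j => inner_evec_zvec _ _)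
    (by simpa only [inner_zvec, cpart_zvec] using hh2)
  obtain ⟨B', hBm, hBp, hB⟩ := hB (VV J s) J (fun j => zvec J (k j)) (fun j => evec s (j, true))
    (fun j => evec s (j, false)) (fun j => orth3 _ (hk j) j)
  have hfin : (Module.finrank ℝ (VV J s) : ℝ) = n + 1 := by
    have : Module.finrank ℝ (VV J s) = n + 1 := by simp [hn, mul_comm]
    exact_mod_cast this
  rw [hfin] at hA hB
  have hOm : Measurable (fun ω => O (ξ ω)) := O.continuous.measurable.comp hξ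
  have hlaw' : P.map (fun ω => O (ξ ω)) = stdGaussian (VV J s) := by
    rw [← stdGaussian_map O, ← hlaw, Measure.map_map O.continuous.measurable hξ]
    rfl
  have hreal : ∀ S : Set (VV J s), MeasurableSet S →
      P.real ((fun ω => O (ξ ω)) ⁻¹' S) = (stdGaussian (VV J s)).real S := by
    intro S hS
    rw [← hlaw', measureReal_def, measureReal_def, Measure.map_apply hOm hS]
  have hn0 : (0 : ℝ) ≤ n := Nat.cast_nonneg n
  have h4q : 0 < 4 / q0 := by positivity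
  have hloc' : ∀ a : EuclideanSpace ℝ (Fin (n + 1)), ‖O a‖ ^ 2 ≤ (Λ + 8 + 4 / q0) * (n + 2) →
      ∀ j, Local (comb p (n + 1) a) (D j) (y j) ε ⟪zvec J (k j), O a⟫ ⟪evec s (j, true), O a⟫
        ⟪evec s (j, false), O a⟫ := by
    intro a ha j
    refine hO a j (le_trans ?_ hsm)
    rw [O.norm_map] at ha
    have h1 : 1 ≤ (Λ + 8 + 4 / q0) * (n + 2) := by nlinarith
    have h2 : ‖a‖ ≤ (Λ + 8 + 4 / q0) * (n + 2) := by nlinarith [sq_nonneg (‖a‖ - 1)]
    gcongr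
  have hdeg : ∀ a : EuclideanSpace ℝ (Fin (n + 1)), (comb p (n + 1) a).natDegree ≤ n := fun a =>
    Nat.le_of_succ_le_succ (hp.comb_natDegree (Nat.succ_pos n) a)
  have hgap : q0 / 4 * M ≤ 2 * ((1 - q0 / 16) * Fintype.card J) - (n - q0 * Fintype.card J / 2) := by
    have a1 : (2 + 3 * q0 / 8) * ((1 - q0 / 32) * M) ≤ (2 + 3 * q0 / 8) * Fintype.card J := by
      gcongr
    nlinarith [mul_le_mul_of_nonneg_right hq1 (mul_nonneg hq0.le hM.le), mul_pos hq0 hM]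
  have hv := variance_ge P (fun ω => (((comb p (n + 1) (ξ ω)).roots.toFinset.card : ℕ) : ℝ)) n
    (fun ω => by
      rw [Nat.abs_cast]
      exact_mod_cast (Multiset.toFinset_card_le _).trans ((card_roots' _).trans (hdeg _)))
    _ _ (hOm hAm) (hOm hBm) (min p1 (q0 / 4)) (2 * ((1 - q0 / 16) * Fintype.card J))
    (n - q0 * Fintype.card J / 2) (by rw [hreal _ hAm]; exact (min_le_left _ _).trans hAp)
    (by rw [hreal _ hBm]; exact (min_le_right _ _).trans hBp)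
    (by nlinarith [mul_pos hq0 hM]) (fun ω hω => by
      obtain ⟨a1, a2⟩ := hA _ hω
      have a3 := count_lower (comb p (n + 1) (ξ ω)) D y _ _ _ ε hε hsep
        (Finset.univ.filter (fun j => ¬ (|⟪zvec J (k j), O (ξ ω)⟫| ≤
          |⟪evec s (j, true), O (ξ ω)⟫| + |⟪evec s (j, false), O (ξ ω)⟫| + 1)))
        (fun j _ => hloc' _ (by nlinarith) j) (fun j hj => not_le.1 (Finset.mem_filter.1 hj).2)
      have a4 := Finset.card_filter_add_card_filter_not (s := (Finset.univ : Finset J))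
        (fun j => |⟪zvec J (k j), O (ξ ω)⟫| ≤
          |⟪evec s (j, true), O (ξ ω)⟫| + |⟪evec s (j, false), O (ξ ω)⟫| + 1)
      rw [Finset.card_univ] at a4
      have a5 := (Nat.cast_le (α := ℝ)).2 a3
      have a6 := congrArg (Nat.cast : ℕ → ℝ) a4
      push_cast at a5 a6
      linarith) (fun ω hω => by
      obtain ⟨a1, a2⟩ := hB _ hω
      have a0 : 4 * ((n : ℝ) + 1 + 1) / q0 = 4 / q0 * (n + 2) := by ring
      have a3 := count_upper (comb p (n + 1) (ξ ω)) D y _ _ _ ε hε hsep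
        (Finset.univ.filter (fun j => Box ⟪zvec J (k j), O (ξ ω)⟫
          ⟪evec s (j, true), O (ξ ω)⟫ ⟪evec s (j, false), O (ξ ω)⟫))
        (fun j _ => hloc' _ (by nlinarith) j) (fun j hj => (Finset.mem_filter.1 hj).2) n (hdeg _)
        ((Finset.card_le_univ _).trans (by omega))
      have a5 := (Nat.cast_le (α := ℝ)).2 a3
      push_cast at a5
      linarith)
  refine le_trans ?_ hv
  rw [mul_assoc, ← mul_pow]
  have : q0 / 8 * M ≤ (2 * ((1 - q0 / 16) * Fintype.card J) - (n - q0 * Fintype.card J / 2)) / 2 := by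
    linarith
  gcongr

theorem core2 : ∃ κ0 : ℝ, 0 < κ0 ∧ ∃ G0 : ℝ, 0 < G0 ∧ ∃ c0 : ℝ, 0 < c0 ∧
    ∀ (Φ : ℝ[X] →ₗ[ℝ] ℝ) (E : Set ℝ), Fnl Φ E →
    E ⊆ Set.Icc (-1) 1 → Small E κ0 → Cap E G0 → ∀ δ : ℝ, 0 < δ → ∀ (K0 : ℕ),
    ∃ (n : ℕ) (A : Type) (_ : Fintype A) (x w : A → ℝ) (γ : ℝ), K0 ≤ n ∧ (∀ a, |x a| < 1) ∧
      (∀ a, 0 ≤ w a) ∧ ∑ a, w a ≤ δ ∧ 0 < γ ∧
      ∀ Ψ : ℝ[X] →ₗ[ℝ] ℝ, Close Ψ Φ x w γ → ∀ p, IsONP (wform Ψ 1) p → BigVar p n (c0 * n ^ 2) := by
  classical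
  obtain ⟨q0, hq0, hq1, p0, hp0, Λ, hΛ, hcore⟩ := var_core2
  refine ⟨q0 / 256, by positivity, 19 * 32 / q0, by positivity, p0 / 9, by positivity,
    fun Φ E hΦ hE hsmall hcap δ hδ K0 => ?_⟩
  obtain ⟨T, hTm, hTd, hTE⟩ := hcap
  obtain ⟨ρ, hρ, M0, hM0⟩ := hsmall
  have hne : E.Nonempty := by
    by_contra h0
    rw [Set.not_nonempty_iff_eq_empty] at h0
    have h1 := hΦ.mono (-1) (by simp [h0])
    have h2 := hΦ.pos 1 one_ne_zero
    rw [map_neg] at h1
    rw [one_mul] at h2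
    linarith
  obtain ⟨σ, hσ1, hσ2⟩ := exists_sigma E hE hne ρ hρ
  obtain ⟨D, hD⟩ := exists_nat_ge (256 * σ.natDegree / q0 + 1)
  have hD0 : (0 : ℝ) ≤ 256 * σ.natDegree / q0 := by positivity
  have hD1 : (1 : ℝ) ≤ D := by linarith
  have hDd : (σ.natDegree : ℝ) ≤ q0 / 256 * D := by
    have : 256 * σ.natDegree / q0 ≤ (D : ℝ) := by linarith
    rw [div_le_iff₀ hq0] at this
    linarith
  set R : ℝ := 1 + 1 / ρ with hR
  have hρ' : 0 < 1 / ρ := by positivity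
  have hR1 : 1 ≤ R := by linarith
  set c : ℝ := 1 / (10000 * Λ * R) with hc
  have hc0 : 0 < c := by positivity
  have hcR : c * R * Λ = 1 / 10000 := by rw [hc]; field_simp
  have hcR' : c * R ≤ 1 / 10000 := by nlinarith [mul_pos hc0 (by linarith : 0 < R)]
  have hc1 : c ≤ 1 / 10000 := by nlinarith
  have hcρ : c * (1 / ρ) ≤ c * R := by gcongr; linarith
  have hev : ∀ᶠ K : ℕ in atTop, (K : ℝ) ^ 17 / 4 ^ K ≤ δ * c ^ 4 / (8 * (D : ℝ) ^ 17) :=
    (tendsto_pow_const_div_const_pow_of_one_lt 17 (by norm_num : (1 : ℝ) < 4)).eventually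
      (ge_mem_nhds (by positivity))
  obtain ⟨K1, hK1⟩ := exists_nat_ge (64 * T.natDegree / q0 + |Real.log (min (ρ / 2) 1)|)
  obtain ⟨K, hKδ, hK⟩ := (hev.and (eventually_ge_atTop (M0 + K0 + K1 + 1))).exists
  set M := D * K with hMdef
  have hD1' : 1 ≤ D := by exact_mod_cast hD1
  have hKM : K ≤ M := Nat.le_mul_of_pos_left _ hD1'
  have hM1 : (1 : ℝ) ≤ M := by exact_mod_cast (by omega : 1 ≤ M)
  have hMpos : (0 : ℝ) < M := by linarith
  set ε : ℝ := c / (M : ℝ) ^ 4 with hεdef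
  have hε : 0 < ε := by positivity
  have hεM : ε * (M : ℝ) ^ 4 = c := by rw [hεdef]; field_simp
  have hM2 : (1 : ℝ) ≤ (M : ℝ) ^ 2 := one_le_pow₀ hM1
  have hM3 : (1 : ℝ) ≤ (M : ℝ) ^ 3 := one_le_pow₀ hM1
  have hM4 : (1 : ℝ) ≤ (M : ℝ) ^ 4 := one_le_pow₀ hM1
  have hεc : ε ≤ c := by nlinarith
  have hε3 : ε * (M : ℝ) ^ 3 ≤ c := by nlinarith [mul_pos hε (pow_pos hMpos 3)]
  have hε2 : ε * (M : ℝ) ^ 2 ≤ c := by nlinarith [mul_pos hε (pow_pos hMpos 2)]
  have hερ : 4 * ε ≤ ρ := by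
    have : c * (1 / ρ) ≤ 1 / 4 := by linarith
    rw [mul_one_div, div_le_iff₀ hρ] at this
    linarith
  have hsep : 6 * ε ≤ 2 / (M : ℝ) ^ 2 := by rw [le_div_iff₀ (by positivity)]; linarith
  set I := (range M).filter (fun i => ¬ ∃ e ∈ E, |node M i - e| < 2 * ρ) with hIdef
  have hI : I ⊆ range M := Finset.filter_subset _ _
  have hIM : ∀ j : I, (j : ℕ) < M := fun j => Finset.mem_range.1 (hI j.2)
  have hIc : I.card ≤ M := by simpa using Finset.card_le_card hI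
  have hIc'' : (1 - q0 / 256) * M ≤ Fintype.card I := by
    have a1 := hM0 M (by omega)
    have a2 := congrArg (Nat.cast : ℕ → ℝ) (Finset.card_filter_add_card_filter_not (s := range M)
      (fun i => ∃ e ∈ E, |node M i - e| < 2 * ρ))
    rw [Finset.card_range] at a2
    push_cast at a2
    rw [Fintype.card_coe]
    linarith
  have hIc' : (1 - q0 / 32) * M ≤ Fintype.card I := le_trans (by gcongr; norm_num) hIc''
  have hr : (Fintype.card I : ℝ) ≤ M := by rw [Fintype.card_coe]; exact_mod_cast hIc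
  set y : I → ℝ := fun j => node M j with hy
  have hfar2 : ∀ j, ∀ x ∈ E, 2 * ρ ≤ |x - y j| := by
    intro j x hx
    have := (Finset.mem_filter.1 j.2).2
    push Not at this
    rw [abs_sub_comm]
    exact this x hx
  have hfar : ∀ j, ∀ x ∈ E, ρ ≤ |x - y j| := fun j x hx => le_trans (by linarith) (hfar2 j x hx)
  have hysep : ∀ i j, i ≠ j → 2 / (M : ℝ) ^ 2 ≤ |y i - y j| := fun i j hij =>
    node_sep' (hIM i) (hIM j) (fun h => hij (Subtype.ext h))
  have hnear : ∀ (j : I) (x : ℝ), |x - y j| ≤ ε → |x| < 1 ∧ 1 ≤ |σ.eval x| := by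
    intro j x hx
    have a1 := node_interior (hIM j)
    have a2 : |x| ≤ |x - y j| + |y j| := by simpa using abs_add_le (x - y j) (y j)
    have a3 : ε < 1 / (2 * (M : ℝ) ^ 2) := by rw [lt_div_iff₀ (by positivity)]; linarith
    have a4 : |x| < 1 := by change |y j| ≤ _ at a1; linarith
    refine ⟨a4, hσ2 x (abs_le.1 a4.le) (fun e he => ?_)⟩
    have a5 := hfar2 j e he
    have a6 := abs_sub_le e x (y j)
    rw [abs_sub_comm e x] at a6
    linarith
  have hatom : ∀ a : I × Bool, |atom y ε a - y a.1| ≤ ε := fun a => by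
    rw [atom, add_sub_cancel_left, abs_mul, abs_sg, abs_of_pos hε, one_mul]
  obtain ⟨q, hq⟩ := hΦ.exists_onp (om y ε) (om_ne y ε)
  set s0 := 2 * (M - I.card) + σ.natDegree * K with hs0def
  set L := T.natDegree * (s0 / T.natDegree + 1) with hLdef
  have hL1 : s0 < L := Nat.lt_mul_div_succ s0 hTd
  have hL2 : L ≤ s0 + T.natDegree := by
    rw [hLdef, mul_add, mul_one]
    exact Nat.add_le_add_right (Nat.mul_div_le _ _) _
  have hK1M : (K1 : ℝ) ≤ M := by exact_mod_cast (by omega : K1 ≤ M)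
  have hMI : (M : ℝ) ≤ 2 * Fintype.card I := by nlinarith
  have hTM0 : 0 ≤ 64 * T.natDegree / q0 := by positivity
  have hXq : ∀ Q, wform Φ (om y ε) (X * Q) (X * Q) ≤ wform Φ (om y ε) Q Q := fun Q => by
    have := form_le hΦ (om y ε) (X * Q) Q 1 (fun x hx => by
      rw [eval_mul, eval_X, abs_mul]
      exact mul_le_mul_of_nonneg_right (abs_le.2 (hE hx)) (abs_nonneg _))
    rwa [one_pow, one_mul] at this
  obtain ⟨t, ht1, ht2, htop⟩ := exists_top hq hXq y (fun j => Real.abs_cos_le_one _) s0 L hL1.le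
    (by omega) (q0 / 32) (19 * 32 / q0) 8 (by positivity) (by norm_num)
    (by rw [show q0 / 32 * (19 * 32 / q0) = 19 by field_simp]; norm_num)
    (by exact_mod_cast (by linarith : (0 : ℝ) < Fintype.card I))
    (cap_jump hΦ _ hq T hTm _ hTE s0 _) (by
      have a0 : 0 < min (ρ / 2) 1 := lt_min (by positivity) one_pos
      have a1 := ker_lower hΦ _ hq y (min (ρ / 2) 1) _ a0 (by positivity)
        (node_prod M I hI _ a0 (min_le_right _ _))
        (fun j x hx => le_trans (by linarith [min_le_left (ρ / 2) 1]) (hfar j x hx)) (s0 + L)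
      refine le_trans ?_ a1
      rw [Real.log_div a0.ne' (by positivity), Real.log_pow]
      have a2 : Real.log 12 ≤ 3 := by
        rw [Real.log_le_iff_le_exp (by norm_num)]
        have h3 := Real.exp_one_gt_d9
        rw [show (3 : ℝ) = 1 + 1 + 1 by norm_num, Real.exp_add, Real.exp_add]
        nlinarith
      have a3 : -(8 * (Fintype.card I : ℝ)) ≤ Real.log (min (ρ / 2) 1) - M * Real.log 12 := by
        nlinarith [neg_abs_le (Real.log (min (ρ / 2) 1))]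
      have a4 := mul_le_mul_of_nonneg_left a3 (by positivity : (0 : ℝ) ≤ 2 * (s0 + L))
      push_cast
      linarith)
  set s := t + 1 with hsdef
  have hs : 0 < s := by omega
  set n := 2 * I.card + t with hndef
  have hn : n + 1 = 2 * Fintype.card I + s := by rw [Fintype.card_coe]; omega
  have hnM : (n : ℝ) ≤ (2 + q0 / 32) * M := by
    have a1 : n + 2 * I.card ≤ 4 * M + 2 * (σ.natDegree * K) + T.natDegree := by omega
    have a2 := (Nat.cast_le (α := ℝ)).2 a1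
    have a3 : (σ.natDegree : ℝ) * K ≤ q0 / 256 * M := by
      rw [hMdef]
      push_cast
      nlinarith [mul_le_mul_of_nonneg_right hDd (Nat.cast_nonneg (α := ℝ) K)]
    have a4 : 64 * (T.natDegree : ℝ) / q0 ≤ M := by
      linarith [abs_nonneg (Real.log (min (ρ / 2) 1))]
    rw [div_le_iff₀ hq0] at a4
    rw [Fintype.card_coe] at hIc''
    push_cast at a2
    linarith
  have hKn : K0 ≤ n := by
    have a1 : (K0 : ℝ) ≤ M := by exact_mod_cast (by omega : K0 ≤ M)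
    rw [Fintype.card_coe] at hMI
    have a2 : K0 ≤ 2 * I.card := by exact_mod_cast a1.trans hMI
    omega
  have hn3 : (n : ℝ) ≤ 3 * M := hnM.trans (by gcongr; linarith)
  have hG : ∀ a, ε ^ 2 / 2 ≤ (1 / 2) ^ K * |(GG y ε q s a).eval (atom y ε a)| := by
    intro a
    have hdeg : (σ ^ K * rest M I).degree < s := by
      refine degree_le_natDegree.trans_lt (Nat.cast_lt.2 ?_)
      have a1 := natDegree_mul_le (p := σ ^ K) (q := rest M I)
      have a2 := natDegree_pow_le (p := σ) (n := K)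
      have a3 := rest_deg M I hI
      rw [mul_comm K] at a2
      omega
    refine le_trans ?_ (weight hΦ y ε ρ hε (by linarith) hfar hq hs (σ ^ K * rest M I) hdeg
      ((1 / 2) ^ K) (by positivity) (fun x hx => ?_) a)
    · have a1 := Om_lower M I hI ε hε (by linarith) a
      have a2 := one_le_pow₀ (n := K) (hnear a.1 _ (hatom a)).2
      rw [mul_left_comm, eval_mul, abs_mul, eval_pow, abs_pow, div_eq_mul_one_div]
      gcongr
      nlinarith
    · have a1 := om_upper M I hI ε x hε.le (abs_le.2 (hE hx))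
        (fun i hi => le_trans (by linarith) (hfar ⟨i, hi⟩ x hx))
      have a2 := pow_le_pow_left₀ (abs_nonneg _) (hσ1 x hx) K
      rw [mul_left_comm, eval_mul, abs_mul, eval_pow, abs_pow]
      nlinarith [pow_nonneg (abs_nonneg (σ.eval x)) K]
  have hG0 : ∀ a, (GG y ε q s a).eval (atom y ε a) ≠ 0 := by
    intro a h0
    have := hG a
    rw [h0, abs_zero, mul_zero] at this
    linarith [sq_pos_of_pos hε]
  obtain ⟨C1, hC1, hT1⟩ := exists_bound (TT y ε q s)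
  obtain ⟨C2, hC2, hT2⟩ := exists_bound (derivative.comp (TT y ε q s))
  refine ⟨n, I × Bool, inferInstance, atom y ε, fun a => ((GG y ε q s a).eval (atom y ε a) ^ 2)⁻¹,
    c / M / (C1 + C2) ^ 2, hKn, fun a => (hnear a.1 _ (hatom a)).1, fun a => by positivity,
    ?_, by positivity, fun Ψ hΨ p hp => ?_⟩
  · have hw : ∀ a, ((GG y ε q s a).eval (atom y ε a) ^ 2)⁻¹ ≤ 4 / (4 ^ K * ε ^ 4) := by
      intro a
      have a1 := pow_le_pow_left₀ (by positivity) (hG a) 2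
      rw [mul_pow, sq_abs, ← pow_mul, mul_comm K 2, pow_mul, show ((1 : ℝ) / 2) ^ 2 = 4⁻¹ by norm_num,
        inv_pow, le_inv_mul_iff₀ (by positivity)] at a1
      rw [inv_le_comm₀ (sq_pos_of_ne_zero (hG0 a)) (by positivity), inv_div]
      linarith
    refine (Finset.sum_le_sum (fun a _ => hw a)).trans ?_
    simp only [Finset.sum_const, Finset.card_univ, Fintype.card_prod, Fintype.card_bool,
      nsmul_eq_mul]
    push_cast
    have a2 : (M : ℝ) * 2 * (4 / (4 ^ K * ε ^ 4))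
        = 8 * (D : ℝ) ^ 17 / c ^ 4 * ((K : ℝ) ^ 17 / 4 ^ K) := by
      rw [hεdef, hMdef]
      push_cast
      have : (K : ℝ) ≠ 0 := by exact_mod_cast (by omega : K ≠ 0)
      field_simp
      norm_num
    calc _ ≤ (M : ℝ) * 2 * (4 / (4 ^ K * ε ^ 4)) := by gcongr
      _ ≤ 8 * (D : ℝ) ^ 17 / c ^ 4 * (δ * c ^ 4 / (8 * (D : ℝ) ^ 17)) := by rw [a2]; gcongr
      _ = δ := by field_simp
  · set θ : ℝ := 4 * M * ε / ρ with hθ
    have hθ0 : 0 < θ := by positivity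
    have hθ1 : θ * M ≤ 4 * (c * R) := by
      have : θ * M = 4 * (ε * (M : ℝ) ^ 2 * (1 / ρ)) := by rw [hθ]; ring
      rw [this]
      have : ε * (M : ℝ) ^ 2 * (1 / ρ) ≤ c * (1 / ρ) := by gcongr
      linarith
    have hθ2 : θ ≤ 1 := by nlinarith
    have hθ3 : 2 * Fintype.card I * (2 * ε / ρ) ^ 2 ≤ θ ^ 2 := by
      have : θ ^ 2 = 4 * (M : ℝ) ^ 2 * (2 * ε / ρ) ^ 2 := by rw [hθ]; ring
      rw [this]
      gcongr ?_ * _
      nlinarith
    have hη1 : (2 * θ + θ ^ 2 + c / M) * M ≤ 13 * (c * R) := by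
      have : c / M * M = c := by field_simp
      nlinarith [mul_le_mul_of_nonneg_right hθ2 (mul_pos hθ0 hMpos).le]
    have hη0 : 0 ≤ 2 * θ + θ ^ 2 + c / M := by positivity
    set lam := 20 * ε * (2 * Fintype.card I / (2 / (M : ℝ) ^ 2) + 1 / ρ) with hlam
    have hlam0 : 0 ≤ lam := by positivity
    have hlam1 : lam * M ≤ 20 * (c * R) := by
      have a1 : lam * M = 20 * (ε * (M : ℝ) ^ 3 * Fintype.card I + ε * M * (1 / ρ)) := by
        rw [hlam]; field_simp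
      have a2 : ε * (M : ℝ) ^ 3 * Fintype.card I ≤ ε * (M : ℝ) ^ 3 * M := by gcongr
      have a3 : ε * M ≤ c := by nlinarith [mul_pos hε hMpos]
      have a4 : ε * M * (1 / ρ) ≤ c * (1 / ρ) := by gcongr
      rw [a1, hR]
      nlinarith
    have hbig := hcore I s n M hMpos hn hIc' hnM (TT y ε q s) (TT_deg hq hs y ε n hn) (DD y ε q s) y
      ε hε (fun i j hij => le_trans (by linarith) (hysep i j hij)) (fun j => kdir q s (y j))
      (fun j => hq.norm_kdir hs _)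
      (EuclideanSpace.single (Fin.last t) 1) (by simp)
      (le_trans (Nat.cast_le.2 (Finset.card_le_card (fun j hj => by
        simp only [Finset.mem_filter, Finset.mem_univ, true_and] at hj ⊢
        exact top_bad hq t _ hj))) htop) lam hlam0
      (fun ξ j t ht => local_shape hΦ y ε ρ _ hε hερ hsep hysep hfar hq hs ξ j t ht)
      (wform Ψ 1) p hp (2 * θ + θ ^ 2 + c / M) hη0 (by nlinarith) (fun ξ => ?_) ?_
    · intro Ω _ P _ ξ hξ hlaw
      refine le_trans ?_ (hbig Ω P ξ hξ hlaw)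
      have a1 := pow_le_pow_left₀ (Nat.cast_nonneg n) hn3 2
      nlinarith
    · have a1 := gram hΦ y ε ρ hε (by linarith) hfar hq hs θ hθ0 hθ3 hG0 ξ
      have a2 := hΨ (TT y ε q s ξ) ((C1 + C2) * ‖ξ‖) (fun t ht =>
        ⟨(hT1 ξ t ht).trans (by gcongr; linarith), (hT2 ξ t ht).trans (by gcongr; linarith)⟩)
      have a3 : c / M / (C1 + C2) ^ 2 * ((C1 + C2) * ‖ξ‖) ^ 2 = c / M * ‖ξ‖ ^ 2 := by field_simp
      rw [wform_apply, one_mul]
      rw [a3, abs_le] at a2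
      rw [abs_le] at a1 ⊢
      constructor <;> linarith [a1.1, a1.2, a2.1, a2.2]
    · have a1 : (2 * lam + 22 * (2 * θ + θ ^ 2 + c / M)) * (Λ * (n + 2))
          ≤ (2 * lam + 22 * (2 * θ + θ ^ 2 + c / M)) * (Λ * (5 * M)) := by gcongr; linarith
      have a2 : (2 * lam + 22 * (2 * θ + θ ^ 2 + c / M)) * M ≤ 326 * (c * R) := by linarith
      have a3 := mul_le_mul_of_nonneg_right a2 (by linarith : 0 ≤ Λ)
      nlinarith

end Pool.Agent.MP_f6b137_pr.H47
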