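import Mathlib
import Pool.Agent.MP_f6b137_pr.H13.Stage
import Pool.Agent.MP_f6b137_pr.H47.Core2

set_option autoImplicit false

open Finset Polynomial Filter Topology MeasureTheory

namespace Pool.Agent.MP_f6b137_pr.H47

open Pool.Agent.MP_f6b137_pr.H13

lemma Cap.mono {E : Set ℝ} {G G' : ℝ} (h : Cap E G) (hG : G' ≤ G) : Cap E G' := by
  obtain ⟨T, h1, h2, h3⟩ := h
  refine ⟨T, h1, h2, fun x hx => (h3 x hx).trans (Real.exp_le_exp.2 ?_)⟩
  have := mul_le_mul_of_nonneg_right hG (Nat.cast_nonneg (α := ℝ) T.natDegree)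
  linarith

lemma Cap.union {E : Set ℝ} {G : ℝ} (h : Cap E G) (hE : E ⊆ Set.Icc (-1) 1) {A : Type}
    [Fintype A] (x : A → ℝ) (hx : ∀ a, |x a| ≤ 1) (G' : ℝ) (hG0 : 0 < G') (hG : G' < G) :
    ∃ τ0 : ℝ, 0 < τ0 ∧ ∀ τ ≤ τ0, Cap (E ∪ ⋃ a, Set.Icc (x a - τ) (x a + τ)) G' := by
  obtain ⟨T, h1, h2, h3⟩ := h
  obtain ⟨r, hr⟩ := exists_nat_ge ((1 + G') * Fintype.card A / (G - G') + 1)
  have hr0 : (0 : ℝ) ≤ (1 + G') * Fintype.card A / (G - G') := by
    have : 0 < G - G' := by linarith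
    positivity
  have hr1 : 0 < r := by exact_mod_cast (by linarith : (0 : ℝ) < r)
  have hr2 : (1 + G') * Fintype.card A ≤ r * (G - G') := by
    rw [← div_le_iff₀ (by linarith)]
    linarith
  set S : ℝ[X] := ∏ a, (X - C (x a)) with hS
  have hSm : S.Monic := monic_prod_of_monic _ _ (fun _ _ => monic_X_sub_C _)
  have hSd : S.natDegree = Fintype.card A := by
    rw [hS, natDegree_prod_of_monic _ _ (fun _ _ => monic_X_sub_C _)]
    simp
  set U := T ^ r * S with hU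
  have hUm : U.Monic := (h1.pow r).mul hSm
  have hUd : U.natDegree = r * T.natDegree + Fintype.card A := by
    rw [hU, (h1.pow r).natDegree_mul hSm, h1.natDegree_pow, hSd]
  have hloc : ∀ a, ∃ τ : ℝ, 0 < τ ∧ ∀ t, |t - x a| ≤ τ →
      |U.eval t| ≤ Real.exp (-(G' * U.natDegree)) := by
    intro a
    have a0 : U.eval (x a) = 0 := by
      rw [hU, eval_mul, hS, eval_prod, Finset.prod_eq_zero (Finset.mem_univ a) (by simp), mul_zero]
    obtain ⟨δ, hδ, hδ'⟩ := Metric.continuous_iff.1 U.continuous (x a) _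
      (Real.exp_pos (-(G' * U.natDegree)))
    refine ⟨δ / 2, by positivity, fun t ht => ?_⟩
    have := hδ' t (by rw [Real.dist_eq]; linarith)
    rw [a0, Real.dist_eq, sub_zero] at this
    exact this.le
  choose τa hτa hτa' using hloc
  have hev : ∀ᶠ τ in 𝓝[>] (0 : ℝ), ∀ a, τ ≤ τa a :=
    Filter.eventually_all.2 (fun a => nhdsWithin_le_nhds (ge_mem_nhds (hτa a)))
  obtain ⟨τ0, hτ0, hτ0'⟩ :=
    (hev.and (self_mem_nhdsWithin : ∀ᶠ τ in 𝓝[>] (0 : ℝ), τ ∈ Set.Ioi 0)).exists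
  refine ⟨τ0, hτ0', fun τ hτ => ⟨U, hUm, by rw [hUd]; positivity, fun t ht => ?_⟩⟩
  rcases ht with ht | ht
  · have a1 : |S.eval t| ≤ Real.exp 1 ^ Fintype.card A := by
      rw [hS, eval_prod, Finset.abs_prod, ← Finset.card_univ, ← Finset.prod_const]
      refine Finset.prod_le_prod (fun _ _ => abs_nonneg _) (fun a _ => ?_)
      simp only [eval_sub, eval_X, eval_C]
      linarith [abs_sub t (x a), abs_le.2 (hE ht), hx a, Real.add_one_le_exp (1 : ℝ)]
    have a2 := pow_le_pow_left₀ (abs_nonneg _) (h3 t ht) r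
    rw [hUd, hU, eval_mul, abs_mul, eval_pow, abs_pow]
    refine (mul_le_mul a2 a1 (abs_nonneg _) (by positivity)).trans ?_
    rw [← Real.exp_nat_mul, ← Real.exp_nat_mul, ← Real.exp_add, Real.exp_le_exp]
    have a3 : (1 : ℝ) ≤ T.natDegree := by exact_mod_cast h2
    have a4 : r * (G - G') * 1 ≤ r * (G - G') * T.natDegree :=
      mul_le_mul_of_nonneg_left a3 (mul_nonneg (Nat.cast_nonneg r) (by linarith))
    push_cast
    nlinarith
  · obtain ⟨a, ha⟩ := Set.mem_iUnion.1 ht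
    exact hτa' a t (abs_le.2 ⟨by linarith [ha.1, hτ0 a], by linarith [ha.2, hτ0 a]⟩)

/-- The state of the construction. -/
structure State2 (κ0 G0 : ℝ) where
  μ : Measure ℝ
  E : Set ℝ
  γ : ℝ
  nice : Nice μ
  ne : μ ≠ 0
  conc : μ Eᶜ = 0
  sub : E ⊆ Set.Icc (-1) 1
  small : ∃ κ < κ0, Small E κ
  cap : ∃ G > G0, Cap E G
  pos : 0 < γ
  mass : μ.real Set.univ + γ ≤ 1

/-- One step of the construction. -/
def Step2 {κ0 G0 : ℝ} (c0 : ℝ) (k : ℕ) (r : ℝ) (S S' : State2 κ0 G0) : Prop :=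
  (∃ l, S'.μ = S.μ + l) ∧ S'.μ.real Set.univ + S'.γ ≤ S.μ.real Set.univ + S.γ ∧
  (∀ a b, a < r → r < b → 0 < S'.μ (Set.Ioo a b)) ∧
  ∀ (ν : Measure ℝ) (hν : Nice ν), S'.μ ≤ ν → ν.real Set.univ ≤ S'.μ.real Set.univ + S'.γ →
    ∀ p, IsONP (wform (fnl hν) 1) p → ∃ n, k ≤ n ∧ BigVar p n (c0 * n ^ 2)

theorem stage2 : ∃ κ0 : ℝ, 0 < κ0 ∧ ∃ G0 : ℝ, 0 < G0 ∧ ∃ c0 : ℝ, 0 < c0 ∧
    ∀ (k : ℕ) (r : ℝ), |r| < 1 → ∀ S : State2 κ0 G0, ∃ S', Step2 c0 k r S S' := by
  obtain ⟨κ0, hκ0, G0, hG0, c0, hc0, hcore⟩ := core2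
  refine ⟨κ0, hκ0, G0, hG0, c0, hc0, fun k r hr S => ?_⟩
  obtain ⟨κ, hκ, hsm⟩ := S.small
  obtain ⟨G, hG, hcap⟩ := S.cap
  have hγ := S.pos
  have hmass := S.mass
  have hm0 : 0 ≤ S.μ.real Set.univ := measureReal_nonneg
  obtain ⟨n, A, _, x, w, γ, hkn, hx, hw, hwδ, hγ0, hmain⟩ := hcore (fnl S.nice) S.E
    (S.nice.fnl S.conc S.ne (by linarith)) S.sub (hsm.mono subset_rfl hκ.le) (hcap.mono hG.le) (S.γ / 3)
    (by positivity) k
  set g := min S.γ γ / 3 with hg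
  have hg0 : 0 < g := by have := lt_min hγ hγ0; positivity
  have hg1 : g ≤ S.γ / 3 := by have := min_le_left S.γ γ; linarith
  have hg2 : g ≤ γ / 3 := by have := min_le_right S.γ γ; linarith
  let x' : Option A → ℝ := fun o => o.elim r x
  let w' : Option A → ℝ := fun o => o.elim g w
  have hx' : ∀ o, |x' o| < 1 := by rintro (_ | a); exacts [hr, hx a]
  have hw' : ∀ o, 0 ≤ w' o := by rintro (_ | a); exacts [hg0.le, hw a]
  have hsum : ∑ o, w' o = g + ∑ a, w a := by rw [Fintype.sum_option]; rfl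
  obtain ⟨τ0, hτ0, hsmall⟩ := exists_small x' ((κ0 - κ) / 2) (by linarith)
  obtain ⟨τ1, hτ1', hcap'⟩ := hcap.union S.sub x' (fun o => (hx' o).le) ((G0 + G) / 2)
    (by linarith) (by linarith)
  have hev : ∀ c : ℝ, 0 < c → ∀ᶠ τ in 𝓝[>] (0 : ℝ), τ ≤ c := fun c hc =>
    nhdsWithin_le_nhds (ge_mem_nhds hc)
  obtain ⟨τ, ⟨hτ1, ⟨hτ2, hτ4⟩, hτ3⟩, hτ⟩ := (((Filter.eventually_all.2 (fun o => hev (1 - |x' o|)
    (by linarith [hx' o]))).and (((hev τ0 hτ0).and (hev τ1 hτ1')).and (hev (γ / 6) (by positivity)))).and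
    (self_mem_nhdsWithin : ∀ᶠ τ in 𝓝[>] (0 : ℝ), τ ∈ Set.Ioi 0)).exists
  replace hτ : 0 < τ := hτ
  have hb : ∀ o, Nice (bump (x' o) τ (w' o)) := fun o => bump_nice _ _ _ hτ (hw' o) (hτ1 o)
  set l : Measure ℝ := ∑ o, bump (x' o) τ (w' o) with hl
  have hln : Nice l := nice_sum _ _ hb
  have hlr : l.real Set.univ = ∑ o, w' o := by
    rw [measureReal_def, hl, Measure.finsetSum_apply, ENNReal.toReal_sum (fun o _ => by
      have := (hb o).fin
      exact measure_ne_top _ _)]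
    exact Finset.sum_congr rfl (fun o _ => bump_real _ _ _ hτ (hw' o))
  have := S.nice.fin
  have := hln.fin
  have hadd : (S.μ + l).real Set.univ = S.μ.real Set.univ + (g + ∑ a, w a) := by
    rw [measureReal_add_apply, hlr, hsum]
  refine ⟨⟨S.μ + l, S.E ∪ ⋃ o, Set.Icc (x' o - τ) (x' o + τ), g, S.nice.add hln, ?_, ?_, ?_,
    ⟨κ + (κ0 - κ) / 2, by linarith, hsm.union (hsmall τ hτ2)⟩,
    ⟨(G0 + G) / 2, by linarith, hcap' τ hτ4⟩, hg0, by linarith⟩,
    ⟨l, rfl⟩, by change (S.μ + l).real _ + g ≤ _; linarith, fun a b ha hb' => ?_,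
    fun ν hν hle hνm p hp => ⟨n, hkn, hmain _ (fun P C hP => ?_) p hp⟩⟩
  · intro h0
    exact S.ne (le_antisymm (h0 ▸ Measure.le_add_right le_rfl) (Measure.zero_le _))
  · rw [Measure.add_apply, measure_mono_null (Set.compl_subset_compl.2 Set.subset_union_left) S.conc,
      zero_add, hl, Measure.finsetSum_apply]
    exact Finset.sum_eq_zero (fun o _ => bump_compl _ _ _
      (Set.subset_union_of_subset_right (Set.subset_iUnion
        (fun o => Set.Icc (x' o - τ) (x' o + τ)) o) _))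
  · refine Set.union_subset S.sub (Set.iUnion_subset (fun o => Set.Icc_subset_Icc ?_ ?_))
    · linarith [neg_abs_le (x' o), hτ1 o]
    · linarith [le_abs_self (x' o), hτ1 o]
  · change 0 < (S.μ + l) _
    rw [Measure.add_apply, hl, Measure.finsetSum_apply, Fintype.sum_option]
    exact lt_of_lt_of_le (bump_pos r τ g hτ hg0 a b ha hb') (le_self_add.trans le_add_self)
  · change S.μ + l ≤ ν at hle
    change _ ≤ (S.μ + l).real _ + g at hνm
    have := hν.fin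
    have hν' := Measure.sub_add_cancel_of_le hle
    set m := ν - (S.μ + l)
    have hmn : Nice m := hν.of_le Measure.sub_le
    have := hmn.fin
    have hmr : m.real Set.univ ≤ g := by
      rw [← hν', measureReal_add_apply] at hνm
      linarith
    have hc := (P * P).continuous
    have e1 : fnl hν (P * P) = ∫ t, (P * P).eval t ∂m + (fnl S.nice (P * P)
        + ∑ o, ∫ t, (P * P).eval t ∂(bump (x' o) τ (w' o))) := by
      rw [fnl_apply, fnl_apply, ← integral_finsetSum_measure (fun o _ => (hb o).integrable hc),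
        ← hl, ← integral_add_measure (S.nice.integrable hc) (hln.integrable hc),
        ← integral_add_measure (hmn.integrable hc) ((S.nice.add hln).integrable hc), hν']
    have hsq : ∀ t ∈ Set.Icc (-1 : ℝ) 1, P.eval t ^ 2 ≤ C ^ 2 := fun t ht => by
      rw [← sq_abs]
      exact pow_le_pow_left₀ (abs_nonneg _) (hP t ht).1 2
    have e2 : |∫ t, (P * P).eval t ∂m| ≤ C ^ 2 * g := by
      have := norm_integral_le_of_norm_le_const (μ := m) (f := fun t => (P * P).eval t)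
        (C := C ^ 2) (by
          filter_upwards [mem_ae_iff.2 hmn.supp] with t ht
          rw [Real.norm_eq_abs, eval_mul, ← sq, abs_of_nonneg (sq_nonneg _)]
          exact hsq t ht)
      exact this.trans (by gcongr)
    have e3 : |∑ o, ∫ t, (P * P).eval t ∂(bump (x' o) τ (w' o)) - ∑ o, w' o * P.eval (x' o) ^ 2|
        ≤ (g + ∑ a, w a) * (2 * τ * C ^ 2) := by
      rw [← Finset.sum_sub_distrib, ← hsum, Finset.sum_mul]
      exact (Finset.abs_sum_le_sum_abs _ _).trans (Finset.sum_le_sum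
        (fun o _ => bump_integral _ _ _ hτ (hw' o) (hτ1 o) P C hP))
    have e4 : ∑ o, w' o * P.eval (x' o) ^ 2 = g * P.eval r ^ 2 + ∑ a, w a * P.eval (x a) ^ 2 := by
      rw [Fintype.sum_option]; rfl
    have e5 : g * P.eval r ^ 2 ≤ g * C ^ 2 :=
      mul_le_mul_of_nonneg_left (hsq r (abs_le.1 hr.le)) hg0.le
    have e6 : 0 ≤ g * P.eval r ^ 2 := by positivity
    have e7 : (g + ∑ a, w a) * (2 * τ * C ^ 2) ≤ 1 * (2 * (γ / 6) * C ^ 2) := by
      gcongr
      linarith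
    have e8 : g * C ^ 2 ≤ γ / 3 * C ^ 2 := by gcongr
    rw [e4] at e3
    rw [e1]
    rw [abs_le] at e2 e3 ⊢
    constructor <;> linarith [e2.1, e2.2, e3.1, e3.2]

lemma exists_init2 (κ0 G0 : ℝ) (hκ0 : 0 < κ0) (hG0 : 0 < G0) : Nonempty (State2 κ0 G0) := by
  obtain ⟨τ0, hτ0, h⟩ := exists_small (fun _ : Unit => (0 : ℝ)) (κ0 / 2) (by positivity)
  set τ := min τ0 (Real.exp (-(G0 + 1))) with hτdef
  have hτ : 0 < τ := lt_min hτ0 (Real.exp_pos _)
  have h2 : τ ≤ Real.exp (-(G0 + 1)) := min_le_right _ _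
  have h1 : τ ≤ 1 := h2.trans (Real.exp_le_one_iff.2 (by linarith))
  refine ⟨⟨bump 0 τ (1 / 2), Set.Icc (0 - τ) (0 + τ), 1 / 2,
    bump_nice _ _ _ hτ (by norm_num) (by simpa using h1), fun h0 => ?_,
    bump_compl _ _ _ subset_rfl,
    Set.Icc_subset_Icc (by linarith) (by linarith), ⟨κ0 / 2, by linarith,
      (h _ (min_le_left _ _)).mono (Set.subset_iUnion (fun _ : Unit => _) ()) le_rfl⟩,
    ⟨G0 + 1, by linarith, X, monic_X, by simp, fun x hx => ?_⟩, by norm_num, ?_⟩⟩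
  · have := bump_real 0 τ (1 / 2) hτ (by norm_num)
    rw [h0] at this
    simp at this
  · rw [eval_X, natDegree_X, Nat.cast_one, mul_one]
    exact le_trans (abs_le.2 ⟨by linarith [hx.1], by linarith [hx.2]⟩) h2
  · rw [bump_real _ _ _ hτ (by norm_num)]; norm_num

theorem exists_measure2 : ∃ (ν : Measure ℝ) (hν : Nice ν),
    (∀ x ∈ Set.Icc (-1 : ℝ) 1, ∀ ε : ℝ, 0 < ε → 0 < ν (Set.Ioo (x - ε) (x + ε))) ∧
    (∃ p, IsONP (wform (fnl hν) 1) p) ∧ ∃ c0 : ℝ, 0 < c0 ∧ ∀ p, IsONP (wform (fnl hν) 1) p →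
      ∀ k : ℕ, ∃ n, k ≤ n ∧ BigVar p n (c0 * n ^ 2) := by
  obtain ⟨κ0, hκ0, G0, hG0, c0, hc0, hstage⟩ := stage2
  obtain ⟨S0⟩ := exists_init2 κ0 G0 hκ0 hG0
  obtain ⟨e, he⟩ := exists_surjective_nat ℚ
  let r : ℕ → ℝ := fun k => if |(e k : ℝ)| < 1 then e k else 0
  have hr : ∀ k, |r k| < 1 := fun k => by
    simp only [r]
    split_ifs with h
    · exact h
    · simp
  choose F hF using fun k S => hstage k (r k) (hr k) S
  let S : ℕ → State2 κ0 G0 := fun k => Nat.rec S0 F k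
  have hS : ∀ k, Step2 c0 k (r k) (S k) (S (k + 1)) := fun k => hF k (S k)
  obtain ⟨ν, hle, hub⟩ := exists_limit (fun k => (S k).μ) (fun k => (hS k).1)
  have hanti : Antitone (fun k => (S k).μ.real Set.univ + (S k).γ) :=
    antitone_nat_of_succ_le (fun k => (hS k).2.1)
  have hmono : Monotone (fun k => (S k).μ) := monotone_nat_of_le_succ (fun k => by
    obtain ⟨l, hl⟩ := (hS k).1
    rw [hl]
    exact Measure.le_add_right le_rfl)
  have hb : ∀ k, ν Set.univ ≤ ENNReal.ofReal ((S k).μ.real Set.univ + (S k).γ) := by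
    intro k
    refine hub _ MeasurableSet.univ _ (fun j => ?_)
    refine (hmono (le_max_left j k) Set.univ).trans ?_
    have := (S (max j k)).nice.fin
    rw [← ofReal_measureReal]
    refine ENNReal.ofReal_le_ofReal (le_trans ?_ (hanti (le_max_right j k)))
    linarith [(S (max j k)).pos]
  have hb' : ∀ k, ν.real Set.univ ≤ (S k).μ.real Set.univ + (S k).γ := fun k =>
    ENNReal.toReal_le_of_le_ofReal (add_nonneg measureReal_nonneg (S k).pos.le) (hb k)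
  have hν : Nice ν := ⟨⟨(hb 0).trans_lt ENNReal.ofReal_lt_top⟩,
    Measure.AbsolutelyContinuous.mk (fun s hs h0 => nonpos_iff_eq_zero.1
      (hub s hs 0 (fun k => ((S k).nice.ac h0).le))),
    nonpos_iff_eq_zero.1 (hub _ measurableSet_Icc.compl 0 (fun k => (S k).nice.supp.le))⟩
  have hν0 : ν ≠ 0 := fun h0 =>
    (S 0).ne (le_antisymm (h0 ▸ hle 0) (Measure.zero_le _))
  obtain ⟨p, hp⟩ := (hν.fnl hν.supp hν0 ((hb' 0).trans (S 0).mass)).exists_onp 1 one_ne_zero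
  refine ⟨ν, hν, fun x hx ε hε => ?_, ⟨p, hp⟩, c0, hc0,
    fun p hp k => (hS k).2.2.2 ν hν (hle (k + 1)) (hb' (k + 1)) p hp⟩
  obtain ⟨t, ht1, ht2⟩ := exists_rat_btwn (show max (-1) (x - ε) < min 1 (x + ε) from
    max_lt (lt_min (by norm_num) (by linarith [hx.1])) (lt_min (by linarith [hx.2]) (by linarith)))
  rw [max_lt_iff] at ht1
  rw [lt_min_iff] at ht2
  obtain ⟨k, rfl⟩ := he t
  have hrk : r k = e k := if_pos (abs_lt.2 ⟨ht1.1, ht2.1⟩)
  exact ((hS k).2.2.1 _ _ (hrk ▸ ht1.2) (hrk ▸ ht2.2)).trans_le (hle (k + 1) _)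

end Pool.Agent.MP_f6b137_pr.H47
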