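import Mathlib
import Pool.Agent.MP_f6b137_pr.H47.Stage2

set_option autoImplicit false

open Finset Polynomial Filter Topology MeasureTheory ProbabilityTheory

namespace Pool.Agent.MP_f6b137_pr.H47

open Pool.Agent.MP_f6b137_pr.H13

lemma le_card_roots_iff (P : ℝ[X]) (r : ℕ) : r + 1 ≤ P.roots.toFinset.card ↔
    (¬ ∀ i, P.coeff i = 0) ∧ ∃ L : ℕ, ∃ x : Fin (r + 1) → ℝ, ((∀ i, |x i| ≤ L) ∧
      ∀ i j, i ≠ j → 1 / ((L : ℝ) + 1) ≤ |x i - x j|) ∧ ∀ i, P.eval (x i) = 0 := by
  classical
  have h0 : (∀ i, P.coeff i = 0) ↔ P = 0 :=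
    ⟨fun h => Polynomial.ext (by simpa using h), fun h => by simp [h]⟩
  rw [h0]
  constructor
  · intro h
    have hP : P ≠ 0 := by
      rintro rfl
      simp at h
    obtain ⟨f⟩ : Nonempty (Fin (r + 1) ↪ P.roots.toFinset) :=
      Function.Embedding.nonempty_of_card_le (by simpa using h)
    have e1 : ∀ i, ∀ᶠ L : ℕ in atTop, |(f i : ℝ)| ≤ L := fun i =>
      tendsto_natCast_atTop_atTop.eventually (eventually_ge_atTop _)
    have e2 : ∀ i j, ∀ᶠ L : ℕ in atTop, i ≠ j → 1 / ((L : ℝ) + 1) ≤ |(f i : ℝ) - f j| := by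
      intro i j
      by_cases hij : i = j
      · exact Eventually.of_forall (fun L h => absurd hij h)
      · have : 0 < |(f i : ℝ) - f j| :=
          abs_pos.2 (sub_ne_zero.2 (fun h => hij (f.injective (Subtype.ext h))))
        exact (tendsto_one_div_add_atTop_nhds_zero_nat.eventually (ge_mem_nhds this)).mono
          (fun L h _ => h)
    obtain ⟨L, hL1, hL2⟩ := ((eventually_all.2 e1).and
      (eventually_all.2 (fun i => eventually_all.2 (e2 i)))).exists
    refine ⟨hP, L, fun i => f i, ⟨hL1, hL2⟩, fun i => ?_⟩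
    have := (f i).2
    rwa [Multiset.mem_toFinset, mem_roots hP, IsRoot.def] at this
  · rintro ⟨hP, L, x, ⟨-, h1⟩, h2⟩
    have := Finset.card_le_card_of_injOn (s := (univ : Finset (Fin (r + 1))))
      (t := P.roots.toFinset) x (fun i _ => by simp [hP, h2 i]) (fun i _ j _ hij => by
        by_contra hne
        have h3 := h1 i j hne
        rw [hij, sub_self, abs_zero] at h3
        have : (0 : ℝ) < 1 / ((L : ℝ) + 1) := by positivity
        linarith)
    simpa using this

lemma measurable_count (p : ℕ → ℝ[X]) (m : ℕ) :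
    Measurable (fun c : Fin m → ℝ => (∑ k : Fin m, C (c k) * p k).roots.toFinset.card) := by
  refine measurable_of_Ici (fun r => ?_)
  rcases r with _ | r
  · simp
  have e : (fun c : Fin m → ℝ => (∑ k : Fin m, C (c k) * p k).roots.toFinset.card) ⁻¹' Set.Ici (r + 1)
      = (⋂ i, {c : Fin m → ℝ | (∑ k : Fin m, C (c k) * p k).coeff i = 0})ᶜ ∩
        ⋃ L : ℕ, Prod.fst '' {z : (Fin m → ℝ) × {x : Fin (r + 1) → ℝ | (∀ i, |x i| ≤ L) ∧
          ∀ i j, i ≠ j → 1 / ((L : ℝ) + 1) ≤ |x i - x j|} |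
          ∀ i, (∑ k : Fin m, C (z.1 k) * p k).eval (z.2.1 i) = 0} := by
    ext c
    simp only [Set.mem_preimage, Set.mem_Ici, le_card_roots_iff, Set.mem_inter_iff,
      Set.mem_compl_iff, Set.mem_iInter, Set.mem_iUnion, Set.mem_image, Set.mem_ofPred_eq]
    refine and_congr_right (fun _ => exists_congr (fun L => ⟨?_, ?_⟩))
    · rintro ⟨x, h1, h2⟩
      exact ⟨(c, ⟨x, h1⟩), h2, rfl⟩
    · rintro ⟨⟨c', x, h1⟩, h2, rfl⟩
      exact ⟨x, h1, h2⟩
  rw [e]
  refine (MeasurableSet.iInter (fun i => ?_)).compl.inter (MeasurableSet.iUnion (fun L => ?_))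
  · simp only [finsetSum_coeff, coeff_C_mul]
    exact (isClosed_eq (by fun_prop) continuous_const).measurableSet
  · have hc : IsCompact {x : Fin (r + 1) → ℝ | (∀ i, |x i| ≤ L) ∧
        ∀ i j, i ≠ j → 1 / ((L : ℝ) + 1) ≤ |x i - x j|} := by
      refine (isCompact_Icc (a := fun _ => -(L : ℝ)) (b := fun _ => (L : ℝ))).of_isClosed_subset ?_
        (fun x hx => ⟨fun i => (abs_le.1 (hx.1 i)).1, fun i => (abs_le.1 (hx.1 i)).2⟩)
      simp only [Set.ofPred_and, Set.ofPred_forall]
      exact (isClosed_iInter (fun i => isClosed_le (by fun_prop) continuous_const)).inter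
        (isClosed_iInter (fun i => isClosed_iInter (fun j => isClosed_iInter (fun _ =>
          isClosed_le continuous_const (by fun_prop)))))
    have := isCompact_iff_compactSpace.1 hc
    refine (isClosedMap_fst_of_compactSpace _ ?_).measurableSet
    simp only [Set.ofPred_forall, eval_finsetSum, eval_mul, eval_C]
    refine isClosed_iInter (fun i => isClosed_eq (continuous_finsetSum _ (fun k _ => ?_))
      continuous_const)
    exact Continuous.mul (by fun_prop) ((p k).continuous.comp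
      ((continuous_apply i).comp (continuous_subtype_val.comp continuous_snd)))

/-- Bounded variables whose variance is of the order of the squared range have no Gaussian limit. -/
theorem no_clt {Ω : Type} [MeasurableSpace Ω] (P : Measure Ω) [IsProbabilityMeasure P]
    (N : ℕ → Ω → ℝ) (hN : ∀ n, Measurable (N n)) (h0 : ∀ n ω, 0 ≤ N n ω) (h1 : ∀ n ω, N n ω ≤ n)
    (c : ℝ) (hc : 0 < c) (hv : ∃ᶠ n : ℕ in atTop, c * n ^ 2 ≤ variance (N n) P) (m σ : ℕ → ℝ) :
    ¬ TendstoInDistribution (fun n ω => (N n ω - m n) / σ n) atTop id (fun _ => P)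
      (gaussianReal 0 1) := by
  intro h
  have ht := h.tendsto
  have hZ : ∀ n, Measurable (fun ω => (N n ω - m n) / σ n) := fun n => by
    have := hN n
    fun_prop
  obtain ⟨K, hK0, hK⟩ : ∃ K : ℝ, 0 < K ∧
      gaussianReal 0 1 {x | K ≤ |x|} < ENNReal.ofReal (c / 4) := by
    have a1 : Tendsto (fun k : ℕ => gaussianReal 0 1 {x : ℝ | (k : ℝ) + 1 ≤ |x|}) atTop
        (𝓝 (gaussianReal 0 1 (⋂ k : ℕ, {x : ℝ | (k : ℝ) + 1 ≤ |x|}))) :=
      tendsto_measure_iInter_atTop
        (fun k => (measurableSet_le measurable_const (by fun_prop)).nullMeasurableSet)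
        (fun k l hkl x hx => by
          have : (k : ℝ) ≤ l := by exact_mod_cast hkl
          simp only [Set.mem_ofPred_eq] at hx ⊢
          linarith) ⟨0, measure_ne_top _ _⟩
    have a2 : ⋂ k : ℕ, {x : ℝ | (k : ℝ) + 1 ≤ |x|} = ∅ := by
      rw [Set.eq_empty_iff_forall_notMem]
      intro x hx
      obtain ⟨k, hk⟩ := exists_nat_ge |x|
      have := Set.mem_iInter.1 hx k
      simp only [Set.mem_ofPred_eq] at this
      linarith
    rw [a2, measure_empty] at a1
    obtain ⟨k, hk⟩ := (a1.eventually (gt_mem_nhds (ENNReal.ofReal_pos.2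
      (by positivity : 0 < c / 4)))).exists
    exact ⟨k + 1, by positivity, hk⟩
  have e1 : ∀ᶠ n in atTop, P {ω | K ≤ |(N n ω - m n) / σ n|} < ENNReal.ofReal (c / 4) := by
    have a1 := ProbabilityMeasure.limsup_measure_closed_le_of_tendsto ht
      (F := {x : ℝ | K ≤ |x|}) (isClosed_le continuous_const (by fun_prop))
    simp only [ProbabilityMeasure.coe_mk, Measure.map_id] at a1
    refine (eventually_lt_of_limsup_lt (a1.trans_lt hK)).mono (fun n hn => ?_)
    rwa [Measure.map_apply (hZ n) (measurableSet_le measurable_const (by fun_prop))] at hn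
  have e2 : ∀ a b : ℝ, a < b → ∀ᶠ n in atTop, ∃ ω, (N n ω - m n) / σ n ∈ Set.Ioo a b := by
    intro a b hab
    have a1 := ProbabilityMeasure.le_liminf_measure_open_of_tendsto ht
      (G := Set.Ioo a b) isOpen_Ioo
    simp only [ProbabilityMeasure.coe_mk, Measure.map_id] at a1
    have a2 : 0 < gaussianReal 0 1 (Set.Ioo a b) := by
      refine pos_iff_ne_zero.2 (fun h0 => ?_)
      have := gaussianReal_absolutelyContinuous' 0 (v := 1) one_ne_zero h0
      simp at this
      linarith
    refine (eventually_lt_of_lt_liminf (a2.trans_le a1)).mono (fun n hn => ?_)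
    rw [Measure.map_apply (hZ n) measurableSet_Ioo] at hn
    exact nonempty_of_measure_ne_zero hn.ne'
  set R : ℝ := K ^ 2 / c + 1 with hR
  have hR1 : 1 ≤ R := by
    have : 0 ≤ K ^ 2 / c := by positivity
    linarith
  obtain ⟨n, hn, hn1, ⟨u, hu, -⟩, ⟨v, -, hv'⟩⟩ := (hv.and_eventually (e1.and
    ((e2 R (R + 1) (by linarith)).and (e2 (-R - 1) (-R) (by linarith))))).exists
  have hσ : σ n ≠ 0 := by
    intro h2
    rw [h2, div_zero] at hu
    linarith
  set A := (N n u - m n) / σ n with hA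
  set B := (N n v - m n) / σ n with hB
  have hA' : N n u - m n = A * σ n := by rw [hA]; field_simp
  have hB' : N n v - m n = B * σ n := by rw [hB]; field_simp
  have hm : 0 ≤ m n ∧ m n ≤ n ∧ 2 * R * |σ n| < n := by
    rcases lt_or_gt_of_ne hσ with hs | hs
    · rw [abs_of_neg hs]
      refine ⟨?_, ?_, ?_⟩ <;> nlinarith [h0 n u, h1 n v]
    · rw [abs_of_pos hs]
      refine ⟨?_, ?_, ?_⟩ <;> nlinarith [h0 n v, h1 n u]
  have hsq : ∀ ω, (N n ω - m n) ^ 2 ≤ (n : ℝ) ^ 2 := fun ω =>
    sq_le_sq' (by linarith [h0 n ω, hm.2.1]) (by linarith [h1 n ω, hm.1])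
  set S := {ω | K ≤ |(N n ω - m n) / σ n|} with hS
  have hSm : MeasurableSet S := measurableSet_le measurable_const (hZ n).abs
  have b1 : variance (N n) P ≤ ∫ ω, (N n ω - m n) ^ 2 ∂P := by
    rw [← variance_sub_const (hN n).aestronglyMeasurable (m n)]
    exact variance_le_expectation_sq ((hN n).sub_const _).aestronglyMeasurable
  have b2 : ∫ ω, (N n ω - m n) ^ 2 ∂P
      ≤ ∫ ω, ((K * σ n) ^ 2 + S.indicator (fun _ => (n : ℝ) ^ 2) ω) ∂P := by
    refine integral_mono_of_nonneg (Eventually.of_forall (fun ω => sq_nonneg _))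
      ((integrable_const _).add ((integrable_const _).indicator hSm))
      (Eventually.of_forall (fun ω => ?_))
    by_cases hω : ω ∈ S
    · simp only [Set.indicator_of_mem hω]
      linarith [hsq ω, sq_nonneg (K * σ n)]
    · simp only [Set.indicator_of_notMem hω, add_zero]
      simp only [hS, Set.mem_ofPred_eq, not_le, abs_div] at hω
      rw [div_lt_iff₀ (abs_pos.2 hσ)] at hω
      rw [← sq_abs, mul_pow, ← sq_abs (σ n), ← mul_pow]
      exact pow_le_pow_left₀ (abs_nonneg _) hω.le 2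
  rw [integral_add (integrable_const _) ((integrable_const _).indicator hSm), integral_const,
    integral_indicator hSm, setIntegral_const, probReal_univ, smul_eq_mul, smul_eq_mul] at b2
  have b3 : P.real S ≤ c / 4 := ENNReal.toReal_le_of_le_ofReal (by positivity) hn1.le
  have b4 : (2 * R * |σ n|) ^ 2 < (n : ℝ) ^ 2 := pow_lt_pow_left₀ hm.2.2 (by positivity) two_ne_zero
  rw [mul_pow, sq_abs] at b4
  have b5 : K ^ 2 ≤ c * R ^ 2 := by
    have : c * R = K ^ 2 + c := by rw [hR]; field_simp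
    nlinarith
  have b6 : K ^ 2 * σ n ^ 2 ≤ c * R ^ 2 * σ n ^ 2 := by gcongr
  have b7 : P.real S * (n : ℝ) ^ 2 ≤ c / 4 * (n : ℝ) ^ 2 := by gcongr
  nlinarith [mul_lt_mul_of_pos_left b4 hc, sq_nonneg (n : ℝ)]

end Pool.Agent.MP_f6b137_pr.H47
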