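import Pool.Agent.MP_f6b137_pr.H74.Base

/-! Fundamental polynomials of interpolation at the Chebyshev nodes. -/

namespace Pool.Agent.MP_f6b137_pr.H47CHEB

open Polynomial Polynomial.Chebyshev Pool.Agent.MP_f6b137_pr.H74
open scoped Real

noncomputable section

def qq (N i : ℕ) : ℝ[X] := T ℝ (N : ℤ) /ₘ (X - C (Real.cos (ctr N i)))

def ell (N i : ℕ) : ℝ[X] := C ((-1) ^ i * Real.sin (ctr N i) / N) * qq N i

lemma mul_ctr {N : ℕ} (hN : 0 < N) (i : ℕ) : (N : ℝ) * ctr N i = π / 2 + i * π := by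
  have : (N : ℝ) ≠ 0 := by positivity
  unfold ctr; field_simp; ring

lemma ctr_pos {N : ℕ} (hN : 0 < N) (i : ℕ) : 0 < ctr N i := by
  have : (0 : ℝ) < N := by exact_mod_cast hN
  unfold ctr; positivity

lemma ctr_lt {N i : ℕ} (hi : i < N) : ctr N i < π := by
  have hN : (0 : ℝ) < N := by exact_mod_cast (Nat.zero_le i).trans_lt hi
  have h1 : (i : ℝ) + 1 ≤ N := by exact_mod_cast hi
  unfold ctr
  rw [div_lt_iff₀ hN]
  nlinarith [Real.pi_pos]

lemma T_root {N : ℕ} (hN : 0 < N) (i : ℕ) : (T ℝ (N : ℤ)).eval (Real.cos (ctr N i)) = 0 := by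
  rw [T_real_cos, Int.cast_natCast, mul_ctr hN, Real.cos_add_nat_mul_pi, Real.cos_pi_div_two,
    mul_zero]

lemma fact {N : ℕ} (hN : 0 < N) (i : ℕ) :
    (X - C (Real.cos (ctr N i))) * qq N i = T ℝ (N : ℤ) :=
  mul_divByMonic_eq_iff_isRoot.mpr (T_root hN i)

lemma eval_qq {N : ℕ} (hN : 0 < N) (i : ℕ) (θ : ℝ) :
    (Real.cos θ - Real.cos (ctr N i)) * (qq N i).eval (Real.cos θ) = Real.cos (N * θ) := by
  have := congrArg (eval (Real.cos θ)) (fact hN i)
  rw [T_real_cos, Int.cast_natCast] at this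
  simpa using this

lemma eval_self {N i : ℕ} (hi : i < N) : (ell N i).eval (Real.cos (ctr N i)) = 1 := by
  have hN : 0 < N := (Nat.zero_le i).trans_lt hi
  have hN' : (N : ℝ) ≠ 0 := by positivity
  have h := congrArg (fun p => eval (Real.cos (ctr N i)) (derivative p)) (fact hN i)
  simp only [T_derivative_eq_U, derivative_mul, derivative_sub, derivative_X, derivative_C,
    eval_add, eval_mul, eval_sub, eval_X, eval_C, sub_self, zero_mul, add_zero, sub_zero,
    one_mul, Int.cast_natCast, eval_natCast] at h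
  have hU := U_real_cos (ctr N i) ((N : ℤ) - 1)
  rw [show ((((N : ℤ) - 1 : ℤ) : ℝ) + 1) = N by push_cast; ring, mul_ctr hN,
    Real.sin_add_nat_mul_pi, Real.sin_pi_div_two, mul_one] at hU
  have h2 : ((-1 : ℝ) ^ i) * (-1) ^ i = 1 := by rw [← mul_pow]; simp
  unfold ell
  rw [eval_mul, eval_C, h]
  field_simp
  linear_combination ((-1 : ℝ) ^ i) * hU + h2

lemma eval_other {N i j : ℕ} (hi : i < N) (hj : j < N) (hij : i ≠ j) :
    (ell N i).eval (Real.cos (ctr N j)) = 0 := by
  have hN : 0 < N := (Nat.zero_le i).trans_lt hi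
  have hN' : (N : ℝ) ≠ 0 := by positivity
  have h := eval_qq hN i (ctr N j)
  rw [mul_ctr hN, Real.cos_add_nat_mul_pi, Real.cos_pi_div_two, mul_zero] at h
  have hne : Real.cos (ctr N j) - Real.cos (ctr N i) ≠ 0 := by
    intro h0
    have := Real.injOn_cos (ctr_mem hj) (ctr_mem hi) (sub_eq_zero.mp h0)
    unfold ctr at this
    field_simp at this
    apply hij
    have : (i : ℝ) = j := by linarith
    exact_mod_cast this
  unfold ell
  rw [eval_mul, (mul_eq_zero.mp h).resolve_left hne, mul_zero]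

lemma deg {N i : ℕ} (hi : i < N) : (ell N i).natDegree < N := by
  have h1 : (qq N i).natDegree = N - 1 := by
    unfold qq
    rw [natDegree_divByMonic _ (monic_X_sub_C _), natDegree_T, natDegree_X_sub_C]
    simp
  have := natDegree_C_mul_le ((-1) ^ i * Real.sin (ctr N i) / N) (qq N i)
  unfold ell
  omega

lemma orth {N i j : ℕ} (hi : i < N) (hj : j < N) :
    ∫ θ in (0 : ℝ)..π, (ell N i).eval (Real.cos θ) * (ell N j).eval (Real.cos θ) =
      if i = j then π / N else 0 := by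
  have hN : 0 < N := (Nat.zero_le i).trans_lt hi
  have hN' : (N : ℝ) ≠ 0 := by positivity
  have hd : (ell N i * ell N j).degree < 2 * (N : ℕ) := by
    refine degree_le_natDegree.trans_lt ?_
    have h1 := natDegree_mul_le (p := ell N i) (q := ell N j)
    have h2 := deg hi
    have h3 := deg hj
    have : (ell N i * ell N j).natDegree < 2 * N := by omega
    exact_mod_cast this
  have h := integral_eq_sumZeroes hN.ne' hd
  rw [integral_measureT_eq_integral_cos] at h
  simp only [eval_mul] at h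
  rw [h, sumZeroes]
  have hc : ∀ k : ℕ, ((2 * k + 1) / (2 * N) * π : ℝ) = ctr N k := fun k => by
    unfold ctr; field_simp
  simp only [hc, eval_mul]
  rw [Finset.sum_eq_single i]
  · split_ifs with hij
    · subst hij; rw [eval_self hi]; simp
    · rw [eval_other hj hi (Ne.symm hij)]; simp
  · intro k hk hki
    rw [eval_other hi (Finset.mem_range.mp hk) (Ne.symm hki), zero_mul]
  · intro h; exact absurd (Finset.mem_range.mpr hi) h

/-- the data of the closed formula -/
lemma formula {N i : ℕ} {t : ℝ} (hi : i < N) (h0 : 0 ≤ t) (h1 : t ≤ N)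
    (hs : t - i - 1 / 2 ≠ 0) : ∃ A B : ℝ, A = (π * t / N + ctr N i) / 2 ∧
      B = π * (t - i - 1 / 2) / (2 * N) ∧ 0 < Real.sin A ∧ |B| < π / 2 ∧
      |t - i - 1 / 2| / N ≤ |Real.sin B| ∧ |Real.sin B| ≤ Real.sin A ∧
      (ell N i).eval (Real.cos (π * t / N)) = Real.sin (π * (t - i - 1 / 2)) / (2 * N) *
        (Real.cos B / Real.sin B - Real.cos A / Real.sin A) := by
  have hN : 0 < N := (Nat.zero_le i).trans_lt hi
  have hN' : (0 : ℝ) < N := by exact_mod_cast hN
  have hi' : (i : ℝ) + 1 ≤ N := by exact_mod_cast hi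
  have hi0 : (0 : ℝ) ≤ i := by positivity
  have hpi := Real.pi_pos
  set s := t - i - 1 / 2 with hsdef
  set θ := π * t / N with hθ
  have hθ0 : 0 ≤ θ := by positivity
  have hθ1 : θ ≤ π := by rw [hθ, div_le_iff₀ hN']; nlinarith
  have hc0 := ctr_pos hN i
  have hc1 := ctr_lt hi
  set A := (θ + ctr N i) / 2 with hA
  set B := π * s / (2 * N) with hB
  have hAB : θ = A + B := by rw [hA, hB, hθ, hsdef]; unfold ctr; field_simp; ring
  have hAB' : ctr N i = A - B := by rw [hA] at hAB ⊢; linarith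
  have hsA : 0 < Real.sin A := Real.sin_pos_of_pos_of_lt_pi (by linarith) (by linarith)
  have hsN : |s| < N := by rw [abs_lt]; constructor <;> linarith
  have hBabs : |B| = π / 2 * (|s| / N) := by
    rw [hB, abs_div, abs_mul, abs_of_pos hpi, abs_of_pos (by positivity : (0 : ℝ) < 2 * N)]
    field_simp
  have hB1 : |B| < π / 2 := by
    rw [hBabs]
    have : |s| / N < 1 := (div_lt_one hN').mpr hsN
    nlinarith
  have hB2 : |s| / N ≤ |Real.sin B| := by
    have := Real.mul_abs_le_abs_sin hB1.le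
    rw [hBabs] at this
    calc |s| / N = 2 / π * (π / 2 * (|s| / N)) := by field_simp
      _ ≤ _ := this
  have hsB : Real.sin B ≠ 0 := by
    have : 0 < |s| / N := div_pos (abs_pos.mpr hs) hN'
    exact abs_pos.mp (this.trans_le hB2)
  have hB3 : |Real.sin B| ≤ Real.sin A := by
    have e1 : 0 ≤ Real.sin (A + B) := hAB ▸ Real.sin_nonneg_of_nonneg_of_le_pi hθ0 hθ1
    have e2 : 0 ≤ Real.sin (A - B) := hAB' ▸ Real.sin_nonneg_of_nonneg_of_le_pi hc0.le hc1.le
    have e3 := mul_nonneg e1 e2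
    rw [Real.sin_add, Real.sin_sub] at e3
    refine abs_le_of_sq_le_sq' ?_ hsA.le |> abs_le.mpr
    nlinarith [Real.sin_sq_add_cos_sq A, Real.sin_sq_add_cos_sq B]
  refine ⟨A, B, rfl, rfl, hsA, hB1, hB2, hB3, ?_⟩
  have h := eval_qq hN i θ
  have e1 : (N : ℝ) * θ = π * s + π / 2 + i * π := by rw [hθ, hsdef]; field_simp; ring
  rw [e1, Real.cos_add_nat_mul_pi, Real.cos_add_pi_div_two] at h
  have e2 : Real.cos θ - Real.cos (ctr N i) = -2 * Real.sin A * Real.sin B := by
    rw [hAB', hAB, Real.cos_add, Real.cos_sub]; ring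
  have h2 : ((-1 : ℝ) ^ i) * (-1) ^ i = 1 := by rw [← mul_pow]; simp
  rw [e2] at h
  have h3 : (qq N i).eval (Real.cos θ) =
      (-1) ^ i * Real.sin (π * s) / (2 * Real.sin A * Real.sin B) := by
    rw [eq_div_iff (by positivity)]; linear_combination -h
  unfold ell
  rw [eval_mul, eval_C, h3, hAB', Real.sin_sub]
  field_simp
  linear_combination (Real.sin (π * s) * (Real.sin A * Real.cos B - Real.cos A * Real.sin B)) * h2

lemma key {N i : ℕ} {t : ℝ} (hi : i < N) (h0 : 0 ≤ t) (h1 : t ≤ N) :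
    |(ell N i).eval (Real.cos (π * t / N))| * |t - i - 1 / 2| ≤
      |Real.sin (π * (t - i - 1 / 2))| := by
  by_cases hs : t - i - 1 / 2 = 0
  · rw [hs]; simp
  have hN' : (0 : ℝ) < N := by exact_mod_cast (Nat.zero_le i).trans_lt hi
  obtain ⟨A, B, -, -, hsA, -, hB2, hB3, h⟩ := formula hi h0 h1 hs
  set s := t - i - 1 / 2
  have hs' : 0 < |s| := abs_pos.mpr hs
  have hb : 0 < |Real.sin B| := (div_pos hs' hN').trans_le hB2
  have e1 : |Real.cos B / Real.sin B| ≤ N / |s| := by
    rw [abs_div, div_le_div_iff₀ hb hs']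
    rw [div_le_iff₀ hN'] at hB2
    nlinarith [Real.abs_cos_le_one B]
  have e2 : |Real.cos A / Real.sin A| ≤ N / |s| := by
    rw [abs_div, abs_of_pos hsA, div_le_div_iff₀ hsA hs']
    rw [div_le_iff₀ hN'] at hB2
    nlinarith [Real.abs_cos_le_one A]
  have e3 := (abs_sub _ _).trans (add_le_add e1 e2)
  rw [h, abs_mul, abs_div, abs_of_pos (by positivity : (0 : ℝ) < 2 * N)]
  calc _ ≤ |Real.sin (π * s)| / (2 * N) * (N / |s| + N / |s|) * |s| := by gcongr
    _ = _ := by field_simp; ring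

lemma at_node {N i : ℕ} {t : ℝ} (hi : i < N) (hs : t - i - 1 / 2 = 0) :
    (ell N i).eval (Real.cos (π * t / N)) = 1 := by
  have : π * t / N = ctr N i := by
    rw [show t = i + 1 / 2 by linarith]; unfold ctr; ring
  rw [this, eval_self hi]

lemma sq_le {N i : ℕ} {t : ℝ} (hi : i < N) (h0 : 0 ≤ t) (h1 : t ≤ N) :
    (ell N i).eval (Real.cos (π * t / N)) ^ 2 ≤ 10 := by
  by_cases hs : t - i - 1 / 2 = 0
  · rw [at_node hi hs]; norm_num
  have h := (key hi h0 h1).trans (Real.abs_sin_le_abs)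
  rw [abs_mul, abs_of_pos Real.pi_pos] at h
  have h2 := le_of_mul_le_mul_right h (abs_pos.mpr hs)
  rw [← sq_abs]
  have := Real.pi_lt_d2
  nlinarith [abs_nonneg ((ell N i).eval (Real.cos (π * t / N)))]

lemma sum_le (hS : RowSINC) (N : ℕ) (θ : ℝ) (h0 : 0 ≤ θ) (h1 : θ ≤ π) :
    ∑ i ∈ Finset.range N, (ell N i).eval (Real.cos θ) ^ 2 ≤ 50 := by
  classical
  rcases Nat.eq_zero_or_pos N with rfl | hN
  · simp
  have hN' : (0 : ℝ) < N := by exact_mod_cast hN
  have hpi := Real.pi_pos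
  obtain ⟨t, ht⟩ : ∃ t : ℝ, t = N * θ / π := ⟨_, rfl⟩
  have ht0 : 0 ≤ t := by rw [ht]; positivity
  have ht1 : t ≤ N := by rw [ht, div_le_iff₀ hpi]; nlinarith
  have hθ : θ = π * t / N := by rw [ht]; field_simp
  rw [hθ, ← Finset.sum_filter_add_sum_filter_not _ (fun i : ℕ => 1 ≤ |t - 1 / 2 - i|)]
  have a1 : ∑ i ∈ (Finset.range N).filter (fun i : ℕ => 1 ≤ |t - 1 / 2 - i|),
      (ell N i).eval (Real.cos (π * t / N)) ^ 2 ≤ 4 := by
    have := hS.tail (t - 1 / 2) 1 ((Finset.range N).filter (fun i : ℕ => 1 ≤ |t - 1 / 2 - i|))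
      le_rfl fun i hi => (Finset.mem_filter.mp hi).2
    refine le_trans (Finset.sum_le_sum fun i hi => ?_) (this.trans (by norm_num))
    obtain ⟨hi1, hi2⟩ := Finset.mem_filter.mp hi
    have h := (key (Finset.mem_range.mp hi1) ht0 ht1).trans (Real.abs_sin_le_one _)
    rw [show t - i - 1 / 2 = t - 1 / 2 - i by ring] at h
    have hp : 0 < (t - 1 / 2 - i) ^ 2 := by rw [← sq_abs]; positivity
    rw [le_div_iff₀ hp, ← mul_pow, ← sq_abs, abs_mul]
    exact pow_le_one₀ (by positivity) h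
  have a2 : ((Finset.range N).filter (fun i : ℕ => ¬ 1 ≤ |t - 1 / 2 - i|)).card ≤ 3 := by
    have : (Finset.range N).filter (fun i : ℕ => ¬ 1 ≤ |t - 1 / 2 - i|) ⊆
        Finset.Icc (⌊t⌋₊ - 1) (⌊t⌋₊ + 1) := by
      intro i hi
      have h := abs_lt.mp (not_le.mp (Finset.mem_filter.mp hi).2)
      have f1 := Nat.floor_le ht0
      have f2 := Nat.lt_floor_add_one t
      have g1 : ⌊t⌋₊ < i + 2 := by
        have : (⌊t⌋₊ : ℝ) < i + 2 := by linarith [h.2]
        exact_mod_cast this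
      have g2 : i < ⌊t⌋₊ + 2 := by
        have : (i : ℝ) < ⌊t⌋₊ + 2 := by linarith [h.1]
        exact_mod_cast this
      rw [Finset.mem_Icc]; omega
    refine (Finset.card_le_card this).trans ?_
    rw [Nat.card_Icc]; omega
  have a3 : ∑ i ∈ (Finset.range N).filter (fun i : ℕ => ¬ 1 ≤ |t - 1 / 2 - i|),
      (ell N i).eval (Real.cos (π * t / N)) ^ 2 ≤ 30 := by
    refine (Finset.sum_le_card_nsmul _ _ 10 fun i hi =>
      sq_le (Finset.mem_range.mp (Finset.mem_filter.mp hi).1) ht0 ht1).trans ?_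
    rw [nsmul_eq_mul]
    have : (((Finset.range N).filter (fun i : ℕ => ¬ 1 ≤ |t - 1 / 2 - i|)).card : ℝ) ≤ 3 := by
      exact_mod_cast a2
    linarith
  linarith

lemma cot_pos {b : ℝ} (h0 : 0 < b) (h1 : b < π / 2) :
    |Real.cos b / Real.sin b - 1 / b| ≤ 2 := by
  have hpi := Real.pi_pos
  have hs : 0 < Real.sin b := Real.sin_pos_of_pos_of_lt_pi h0 (by linarith)
  have hc : 0 < Real.cos b := Real.cos_pos_of_mem_Ioo ⟨by linarith, h1⟩
  have e1 : b * Real.cos b ≤ Real.sin b := by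
    have := Real.le_tan h0.le h1
    rwa [Real.tan_eq_sin_div_cos, le_div_iff₀ hc] at this
  have e2 := Real.sin_le h0.le
  have e3 := Real.one_sub_sq_div_two_le_cos (x := b)
  have e4 : b ≤ 2 * Real.sin b := by
    have := Real.mul_le_sin h0.le h1.le
    rw [div_mul_eq_mul_div, div_le_iff₀ hpi] at this
    nlinarith [Real.pi_le_four]
  have e5 : b ≤ 2 := by linarith [Real.pi_le_four]
  rw [div_sub_div _ _ hs.ne' h0.ne', abs_div, abs_of_pos (mul_pos hs h0), div_le_iff₀ (mul_pos hs h0),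
    abs_of_nonpos (by linarith)]
  have e6 : Real.sin b - b * Real.cos b ≤ b ^ 3 / 2 := by nlinarith
  have e7 : b ^ 3 / 2 ≤ b * b := by nlinarith [mul_pos h0 h0]
  nlinarith

lemma cot_le {b : ℝ} (h0 : b ≠ 0) (h1 : |b| < π / 2) :
    |Real.cos b / Real.sin b - 1 / b| ≤ 2 := by
  rcases lt_or_gt_of_ne h0 with h | h
  · have := cot_pos (b := -b) (by linarith) (by rwa [abs_of_neg h] at h1)
    rw [Real.cos_neg, Real.sin_neg, div_neg, div_neg, ← abs_neg] at this
    convert this using 2; ring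
  · exact cot_pos h (by rwa [abs_of_pos h] at h1)

lemma sinc_le {N i : ℕ} {t J : ℝ} (hi : i < N) (hJ : 0 < J) (h0 : J ≤ t) (h1 : t + J ≤ N) :
    |(ell N i).eval (Real.cos (π * t / N)) - sk t i| ≤ 3 / J := by
  by_cases hs : t - i - 1 / 2 = 0
  · rw [at_node hi hs, sk, hs]; simp; positivity
  have hN : 0 < N := (Nat.zero_le i).trans_lt hi
  have hN' : (0 : ℝ) < N := by exact_mod_cast hN
  have hpi := Real.pi_pos
  obtain ⟨A, B, hA, hB, hsA, hB1, -, -, h⟩ := formula hi (t := t) (by linarith) (by linarith) hs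
  set s := t - i - 1 / 2
  have hB0 : B ≠ 0 := by rw [hB]; positivity
  have hk : sk t i = Real.sin (π * s) / (2 * N) * (1 / B) := by
    rw [show sk t i = Real.sinc (π * s) from rfl, Real.sinc_of_ne_zero (by positivity), hB]
    field_simp
  have hc0 := ctr_pos hN i
  have hc1 := ctr_lt hi
  have hA1 : π / 2 * (J / N) ≤ A := by
    have : π * J / N ≤ π * t / N := by gcongr
    rw [hA, show π / 2 * (J / N) = π * J / N / 2 by ring]; linarith
  have hA2 : π / 2 * (J / N) ≤ π - A := by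
    have : π * (t + J) / N ≤ π := by rw [div_le_iff₀ hN']; nlinarith
    rw [show π * (t + J) / N = π * t / N + π * J / N by ring] at this
    rw [hA, show π / 2 * (J / N) = π * J / N / 2 by ring]; linarith
  have hJN : 0 < J / N := by positivity
  have hsin : J / N ≤ Real.sin A := by
    have aux : ∀ x : ℝ, π / 2 * (J / N) ≤ x → x ≤ π / 2 → J / N ≤ Real.sin x := fun x hx hx' => by
      have := Real.mul_le_sin (x := x) (le_trans (by positivity) hx) hx'
      calc J / N = 2 / π * (π / 2 * (J / N)) := by field_simp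
        _ ≤ 2 / π * x := by gcongr
        _ ≤ _ := this
    rcases le_total A (π / 2) with h' | h'
    · exact aux A hA1 h'
    · rw [← Real.sin_pi_sub]; exact aux _ hA2 (by linarith)
  have e1 := cot_le hB0 hB1
  have e2 : |Real.cos A / Real.sin A| ≤ N / J := by
    rw [abs_div, abs_of_pos hsA, div_le_div_iff₀ hsA hJ]
    rw [div_le_iff₀ hN'] at hsin
    nlinarith [Real.abs_cos_le_one A]
  have e3 := (abs_sub _ _).trans (add_le_add e1 e2)
  have e4 : (2 : ℝ) ≤ N / J := by rw [le_div_iff₀ hJ]; linarith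
  rw [h, hk, ← mul_sub, show Real.cos B / Real.sin B - Real.cos A / Real.sin A - 1 / B =
    Real.cos B / Real.sin B - 1 / B - Real.cos A / Real.sin A by ring, abs_mul, abs_div,
    abs_of_pos (by positivity : (0 : ℝ) < 2 * N)]
  calc _ ≤ 1 / (2 * N) * (N / J + N / J) := by
        gcongr
        · exact Real.abs_sin_le_one _
        · linarith
    _ = 1 / J := by field_simp; ring
    _ ≤ 3 / J := by gcongr; norm_num

theorem rowCHEB : OfCHEB := fun hS => ⟨ell,
  { deg := fun _ _ hi => deg hi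
    orth := fun _ _ _ hi hj => orth hi hj
    decay := fun _ _ _ hi h0 h1 => (key hi h0 h1).trans (Real.abs_sin_le_one _)
    sum := sum_le hS
    sinc := fun _ _ _ _ hi hJ h0 h1 => sinc_le hi hJ h0 h1 }⟩

end

end Pool.Agent.MP_f6b137_pr.H47CHEB
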